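import Pool.Agent.MP_fcd29e_an.H81.Spec

/-! The divergence equation with support on the concave side (row DIV). -/

set_option autoImplicit false

namespace Pool.Agent.MP_fcd29e_an.H96

open Pool.Agent.MP_fcd29e_an.H81 MeasureTheory Complex Set Filter Topology Metric
open scoped ContDiff ComplexConjugate ENNReal NNReal

noncomputable section

variable {N : ℕ}

theorem cs {X : Type} [MeasurableSpace X] {μ : Measure X} {f g : X → ℂ} (hf : MemLp f 2 μ)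
    (hg : MemLp g 2 μ) :
    ‖∫ x, f x * g x ∂μ‖ ^ 2 ≤ (∫ x, ‖f x‖ ^ 2 ∂μ) * ∫ x, ‖g x‖ ^ 2 ∂μ := by
  have h2 : ENNReal.ofReal 2 = 2 := by simp
  have h := integral_mul_norm_le_Lp_mul_Lq (μ := μ) (f := f) (g := g) Real.HolderConjugate.two_two
    (by rwa [h2]) (by rwa [h2])
  have h1 : ‖∫ x, f x * g x ∂μ‖ ≤ ∫ x, ‖f x‖ * ‖g x‖ ∂μ := by
    simpa only [norm_mul] using norm_integral_le_integral_norm (μ := μ) fun x => f x * g x
  simp only [Real.rpow_two, ← Real.sqrt_eq_rpow] at h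
  have ha : 0 ≤ ∫ x, ‖f x‖ ^ 2 ∂μ := integral_nonneg fun _ => sq_nonneg _
  have hb : 0 ≤ ∫ x, ‖g x‖ ^ 2 ∂μ := integral_nonneg fun _ => sq_nonneg _
  calc _ ≤ (√(∫ x, ‖f x‖ ^ 2 ∂μ) * √(∫ x, ‖g x‖ ^ 2 ∂μ)) ^ 2 :=
        pow_le_pow_left₀ (norm_nonneg _) (h1.trans h) 2
    _ = _ := by rw [mul_pow, Real.sq_sqrt ha, Real.sq_sqrt hb]

theorem memLp_of_L2 {U K : Set (E N)} {f : E N → ℂ} (hf : L2 U f) (hK : IsCompact K)
    (h0 : (0 : E N) ∉ K) (hz : ∀ z ∉ K, f z = 0) : MemLp f 2 (volume.restrict U) := by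
  have e : K.indicator f = f := indicator_eq_self.2 fun z hz' => by
    by_contra h
    exact hz' (hz z h)
  rw [← e, memLp_indicator_iff_restrict hK.measurableSet,
    Measure.restrict_restrict hK.measurableSet, inter_comm]
  exact hf K hK h0

/-- The square root of the cut-off. -/
def qq (κ : ℝ → ℝ) (z : E N) : ℂ := (√(κ (‖z‖ ^ 2)) : ℝ)

theorem qq_cont {κ : ℝ → ℝ} (hκ : Kap κ) : Continuous (qq κ : E N → ℂ) :=
  continuous_ofReal.comp (hκ.smooth.continuous.comp (continuous_norm.pow 2)).sqrt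

theorem kap_zero {κ : ℝ → ℝ} (hκ : Kap κ) {z : E N} (hz : z ∉ Sh N) : κ (‖z‖ ^ 2) = 0 := by
  by_contra h
  exact hz ⟨(hκ.supp _ h).1.le, (hκ.supp _ h).2.le⟩

theorem qq_zero {κ : ℝ → ℝ} (hκ : Kap κ) {z : E N} (hz : z ∉ Sh N) : qq κ z = 0 := by
  simp [qq, kap_zero hκ hz]

theorem zero_nmem_Sh : (0 : E N) ∉ Sh N := by
  intro h
  have := h.1
  norm_num at this

theorem qq_mul {κ : ℝ → ℝ} (hκ : Kap κ) (z : E N) : qq κ z * qq κ z = (κ (‖z‖ ^ 2) : ℂ) := by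
  rw [qq, ← ofReal_mul, Real.mul_self_sqrt (hκ.nonneg _)]

theorem qq_norm {κ : ℝ → ℝ} (hκ : Kap κ) (z : E N) : ‖qq κ z‖ ^ 2 = κ (‖z‖ ^ 2) := by
  rw [qq, norm_real, Real.norm_eq_abs, sq_abs, Real.sq_sqrt (hκ.nonneg _)]

theorem norm_wt {κ : ℝ → ℝ} (hκ : Kap κ) (ρ : E N → ℝ) (k : ℕ) (a : ℂ) (z : E N) :
    ‖qq κ z * (ρ z : ℂ) ^ k * a‖ ^ 2 = κ (‖z‖ ^ 2) * ρ z ^ (2 * k) * ‖a‖ ^ 2 := by
  rw [norm_mul, norm_mul, mul_pow, mul_pow, qq_norm hκ, norm_pow, norm_real, Real.norm_eq_abs,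
    ← pow_mul, mul_comm k 2, pow_mul, pow_mul, sq_abs]

theorem rho_cont {ρ : E N → ℝ} (hρ : Dom ρ) (k : ℕ) :
    ContinuousOn (fun z => (ρ z : ℂ) ^ k) (E0 N) :=
  (continuous_ofReal.comp_continuousOn hρ.smooth.continuousOn).pow k

theorem contDiffAt_E0 {w : E N → ℂ} (hw : ContDiffOn ℝ ∞ w (E0 N)) {z : E N} (hz : z ≠ 0) :
    ContDiffAt ℝ ∞ w z := hw.contDiffAt (isOpen_E0.mem_nhds hz)

theorem memLp_wt (L : Lv0) {ρ : E N → ℝ} (hρ : Dom ρ) {κ : ℝ → ℝ} (hκ : Kap κ) (k : ℕ)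
    {f : E N → ℂ} (hf : ContinuousOn f (E0 N)) :
    MemLp (fun z => qq κ z * (ρ z : ℂ) ^ k * f z) 2 (volume.restrict (Op ρ)) :=
  memLp_of_L2 ((L.t1 N (Op ρ) (L.c1 N ρ hρ).2.1 (L.c1 N ρ hρ).2.2.2.1.1).2.2.1 _
    (((qq_cont hκ).continuousOn.mul (rho_cont hρ k)).mul hf)) ((L.t3.2 N).1 κ hκ).2.2.1
    zero_nmem_Sh fun z hz => by rw [qq_zero hκ hz, zero_mul, zero_mul]

/-- Smooth homogeneous functions. -/
def DD (N : ℕ) (a : ℤ) : Submodule ℂ (E N → ℂ) where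
  carrier := {w | ContDiffOn ℝ ∞ w (E0 N) ∧ Hom (E0 N) a 0 w}
  zero_mem' := ⟨contDiffOn_const, fun c _ z _ => by simp⟩
  add_mem' := fun hf hg => ⟨hf.1.add hg.1, fun c hc z hz => by
    rw [Pi.add_apply, Pi.add_apply, hf.2 c hc z hz, hg.2 c hc z hz]; ring⟩
  smul_mem' := fun s f hf => ⟨contDiffOn_const.mul hf.1, fun c hc z hz => by
    rw [Pi.smul_apply, Pi.smul_apply, hf.2 c hc z hz, smul_eq_mul, smul_eq_mul]; ring⟩

/-- The weighted derivatives. -/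
def TT (ρ : E N → ℝ) {κ : ℝ → ℝ} (hκ : Kap κ) (k : ℕ) (a : ℤ) (l : Fin N) :
    DD N a →ₗ[ℂ] E N → ℂ where
  toFun w z := qq κ z * (ρ z : ℂ) ^ k * dzb l w.1 z
  map_add' f g := by
    funext z
    by_cases hz : z = 0
    · subst hz
      simp [qq_zero hκ zero_nmem_Sh]
    · have h := dzb_add l (ContDiffAt.da (contDiffAt_E0 f.2.1 hz))
        (ContDiffAt.da (contDiffAt_E0 g.2.1 hz))
      change _ * dzb l (fun y => f.1 y + g.1 y) z = _
      rw [h, Pi.add_apply]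
      ring
  map_smul' s f := by
    funext z
    by_cases hz : z = 0
    · subst hz
      simp [qq_zero hκ zero_nmem_Sh]
    · have h := dzb_const_mul l s (ContDiffAt.da (contDiffAt_E0 f.2.1 hz))
      change _ * dzb l (fun y => s * f.1 y) z = s * _
      rw [h]
      ring

theorem integrable_test (L : Lv0) {f ψ : E N → ℂ} (hf : L2 (E0 N) f) (hψ : Test (E0 N) ψ) :
    Integrable fun z => f z * ψ z :=
  (((L.t1 N (E0 N) isOpen_E0 cone_E0.1).1 f hf).2.2.1 ψ hψ.1.continuous hψ.2.1 hψ.2.2).1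

theorem integrable_kap (L : Lv0) {κ : ℝ → ℝ} (hκ : Kap κ) {f w : E N → ℂ} (hf : L2 (E0 N) f)
    (hw : ContDiffOn ℝ ∞ w (E0 N)) : Integrable fun z => (κ (‖z‖ ^ 2) : ℂ) * f z * w z := by
  have h := integrable_test L hf (((L.t1 N (E0 N) isOpen_E0 cone_E0.1).2.2.2.1 _
    ((L.t3.2 N).1 κ hκ).1).1 w hw)
  exact h.congr (Eventually.of_forall fun z => by ring)

theorem stepA (L : Lv0) (h : StmtPOI) (hN : 3 ≤ N) {ρ φ : E N → ℝ} (hρ : Dom ρ) (hφ : PHI ρ φ)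
    {κ : ℝ → ℝ} (hκ : Kap κ) (j k : ℕ) {Θ : E N → ℂ} (hΘ : WL ρ k Θ)
    (h0 : ∫ z, (κ (‖z‖ ^ 2) : ℂ) * Θ z = 0) :
    ∃ v : Fin N → E N → ℂ, (∀ l, Measurable (v l) ∧ MemLp (v l) 2 (volume.restrict (Op ρ))) ∧
      ∀ w, ContDiffOn ℝ ∞ w (E0 N) → Hom (E0 N) (-j) 0 w →
        -∫ z, (κ (‖z‖ ^ 2) : ℂ) * Θ z * w z =
          ∑ l, ∫ z in Op ρ, v l z * (qq κ z * (ρ z : ℂ) ^ k * dzb l w z) := by
  obtain ⟨-, hO, -, hc, -, -, -, -, -, -, -, hWL⟩ := L.c1 N ρ hρ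
  have hΘ2 := hWL k Θ hΘ
  obtain ⟨C, hC, hP⟩ := h N hN ρ φ hρ hφ κ hκ j k
  let ell : DD N (-j) →ₗ[ℂ] ℂ :=
    { toFun := fun w => -∫ z, (κ (‖z‖ ^ 2) : ℂ) * Θ z * w.1 z
      map_add' := fun f g => by
        rw [← neg_add, ← integral_add (integrable_kap L hκ hΘ2 f.2.1)
          (integrable_kap L hκ hΘ2 g.2.1)]
        congr 2
        funext z
        exact mul_add _ _ _
      map_smul' := fun s f => by
        rw [RingHom.id_apply, smul_eq_mul, mul_neg, ← integral_const_mul]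
        congr 2
        funext z
        change _ * (s * f.1 z) = _
        ring }
  have hF : MemLp (fun z => qq κ z * (Θ z / (ρ z : ℂ) ^ k)) 2 (volume.restrict (Op ρ)) :=
    memLp_of_L2 (((L.t1 N (Op ρ) hO hc.1).1 _ hΘ.2.2).2.2.2.2.1 _ (qq_cont hκ).continuousOn)
      ((L.t3.2 N).1 κ hκ).2.2.1 zero_nmem_Sh fun z hz => by rw [qq_zero hκ hz, zero_mul]
  set A := ∫ z in Op ρ, ‖qq κ z * (Θ z / (ρ z : ℂ) ^ k)‖ ^ 2 with hA
  have hA0 : 0 ≤ A := integral_nonneg fun _ => sq_nonneg _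
  have hcont : ∀ (w : E N → ℂ) l, ContDiffOn ℝ ∞ w (E0 N) → ContinuousOn (dzb l w) (E0 N) :=
    fun w l hw z hz => (contDiffAt_dzb l (contDiffAt_E0 hw hz)).continuousAt.continuousWithinAt
  obtain ⟨v, hv, hv2⟩ := L.rz.1 (E N) (Fin N) (DD N (-j)) (volume.restrict (Op ρ))
    (TT ρ hκ k (-j)) ell (A * C) (mul_nonneg hA0 hC)
    (fun l w => memLp_wt L hρ hκ k (hcont _ l w.2.1)) (fun w => by
      obtain ⟨c, -, hc2⟩ := hP w.1 w.2.1 w.2.2
      have e1 : ∫ z, (κ (‖z‖ ^ 2) : ℂ) * Θ z * w.1 z =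
          ∫ z, (κ (‖z‖ ^ 2) : ℂ) * Θ z * (w.1 z - c) := by
        simp only [mul_sub]
        rw [integral_sub (integrable_kap L hκ hΘ2 w.2.1)
          (integrable_kap L hκ hΘ2 contDiffOn_const), integral_mul_const, h0, zero_mul, sub_zero]
      have e2 : ∫ z in Op ρ, (κ (‖z‖ ^ 2) : ℂ) * Θ z * (w.1 z - c) =
          ∫ z, (κ (‖z‖ ^ 2) : ℂ) * Θ z * (w.1 z - c) := by
        refine setIntegral_eq_integral_of_ae_compl_eq_zero (hΘ.2.1.mono fun z hz hz2 => ?_)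
        by_cases hz0 : z = 0
        · rw [kap_zero hκ (hz0 ▸ zero_nmem_Sh)]
          simp
        · rw [hz (not_lt.1 fun h' => hz2 ⟨hz0, h'⟩)]
          simp
      have e3 : ∫ z in Op ρ, (κ (‖z‖ ^ 2) : ℂ) * Θ z * (w.1 z - c) =
          ∫ z in Op ρ, qq κ z * (Θ z / (ρ z : ℂ) ^ k) * (qq κ z * (ρ z : ℂ) ^ k * (w.1 z - c)) := by
        refine setIntegral_congr_fun hO.measurableSet fun z hz => ?_
        have hr : (ρ z : ℂ) ^ k ≠ 0 := pow_ne_zero _ (ofReal_ne_zero.2 hz.2.ne')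
        simp only [← qq_mul hκ z]
        field_simp
      have h1 := cs hF (memLp_wt L hρ hκ k (w.2.1.continuousOn.sub (continuousOn_const (c := c))))
      change ‖-∫ z, (κ (‖z‖ ^ 2) : ℂ) * Θ z * w.1 z‖ ^ 2 ≤
        A * C * ∑ l, ∫ z in Op ρ, ‖qq κ z * (ρ z : ℂ) ^ k * dzb l w.1 z‖ ^ 2
      rw [norm_neg, e1, ← e2, e3, mul_assoc]
      simp only [norm_wt hκ] at h1 ⊢
      exact h1.trans (mul_le_mul_of_nonneg_left hc2 hA0))
  exact ⟨v, hv, fun w hw hw2 => hv2 ⟨w, hw, hw2⟩⟩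

theorem stepB (L : Lv0) {ρ : E N → ℝ} (hρ : Dom ρ) {κ : ℝ → ℝ} (hκ : Kap κ) (k : ℕ) (a b : ℤ)
    {v : E N → ℂ} (hv : Measurable v) (hv2 : MemLp v 2 (volume.restrict (Op ρ))) :
    ∃ V : E N → ℂ, WL ρ k V ∧ Hom (E0 N) a b V ∧ ∀ ψ, Test (E0 N) ψ →
      ∫ z, V z * ψ z =
        ∫ z in Op ρ, v z * (qq κ z * (ρ z : ℂ) ^ k * Pp (-a - N) (-b - N) ψ z) := by
  classical
  obtain ⟨-, hO, -, hc, hρm, -⟩ := L.c1 N ρ hρ
  obtain ⟨t1, t2, -, t4, t5⟩ := L.t4 N a b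
  let u : E N → ℂ := (Op ρ).indicator fun z => v z / qq κ z
  have hu : Measurable u := (hv.div (qq_cont hκ).measurable).indicator hO.measurableSet
  have hρk : Measurable fun z => (ρ z : ℂ) ^ k := (measurable_ofReal.comp hρm).pow_const k
  have e1 : ∀ z, Hop κ a b (fun y => (ρ y : ℂ) ^ k * u y) z = (ρ z : ℂ) ^ k * Hop κ a b u z :=
    t2 (fun y => (ρ y : ℂ) ^ k) u (fun c hc z => by simp only [hρ.inv c hc z]) κ
  have e2 : ∀ z, z ∉ Op ρ → Hop κ a b u z = 0 := by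
    intro z hz
    have h := t2 ((Op ρ).indicator fun _ => 1) u (fun c hc0 y => by
      by_cases hy : y ∈ Op ρ
      · rw [indicator_of_mem hy, indicator_of_mem (hc.2 c hc0 y hy)]
      · rw [indicator_of_notMem hy, indicator_of_notMem]
        intro h
        have h2 := hc.2 c⁻¹ (inv_ne_zero hc0) _ h
        rw [inv_smul_smul₀ hc0] at h2
        exact hy h2) κ z
    have e : (fun y => (Op ρ).indicator (fun _ => (1 : ℂ)) y * u y) = u := by
      funext y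
      by_cases hy : y ∈ Op ρ
      · rw [indicator_of_mem hy, one_mul]
      · simp only [u, indicator_of_notMem hy, mul_zero]
    rw [e, indicator_of_notMem hz, zero_mul] at h
    exact h
  have hfin : ∫⁻ z, ENNReal.ofReal (κ (‖z‖ ^ 2) * ‖u z‖ ^ 2) < ⊤ := by
    have h1 := ((memLp_two_iff_integrable_sq_norm hv2.1).1 hv2).2
    rw [hasFiniteIntegral_iff_ofReal (Eventually.of_forall fun _ => sq_nonneg _),
      ← lintegral_indicator hO.measurableSet] at h1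
    refine lt_of_le_of_lt (lintegral_mono fun z => ?_) h1
    by_cases hz : z ∈ Op ρ
    · simp only [u, indicator_of_mem hz]
      refine ENNReal.ofReal_le_ofReal ?_
      rw [norm_div, div_pow, qq_norm hκ]
      by_cases h0 : κ (‖z‖ ^ 2) = 0
      · rw [h0, zero_mul]
        exact sq_nonneg _
      · rw [mul_div_cancel₀ _ h0]
    · simp [u, indicator_of_notMem hz]
  have e3 : (fun y => (κ (‖y‖ ^ 2) : ℂ) * ((ρ y : ℂ) ^ k * u y)) =
      (Op ρ).indicator fun z => v z * (qq κ z * (ρ z : ℂ) ^ k * 1) := by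
    funext z
    by_cases hz : z ∈ Op ρ
    · simp only [u, indicator_of_mem hz, ← qq_mul hκ z]
      by_cases h0 : qq κ z = 0
      · simp [h0]
      · field_simp
    · simp [u, indicator_of_notMem hz]
  refine ⟨Hop κ a b fun y => (ρ y : ℂ) ^ k * u y, ⟨(t5 κ hκ _ (hρk.mul hu).aestronglyMeasurable).1,
    Eventually.of_forall fun z hz => ?_, ?_⟩, t1 _, fun ψ hψ => ?_⟩
  · rw [e1, e2 z fun h => not_lt.2 hz h.2, mul_zero]
  · have h1 := (t5 κ hκ u hu.aestronglyMeasurable).2.2 hfin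
    have h2 := ((L.t1 N (E0 N) isOpen_E0 cone_E0.1).1 _ h1).2.2.2.2.2.2 (Op ρ) fun z hz => hz.1
    refine ((L.t1 N (Op ρ) hO hc.1).1 _ h2).2.2.2.2.2.1 _ (Eventually.of_forall fun z hz => ?_)
    have hr : (ρ z : ℂ) ^ k ≠ 0 := pow_ne_zero _ (ofReal_ne_zero.2 hz.2.ne')
    rw [e1, mul_div_cancel_left₀ _ hr]
  · have h1 := t4 (fun y => (κ (‖y‖ ^ 2) : ℂ) * ((ρ y : ℂ) ^ k * u y)) ψ (Sh N)
      ((L.t3.2 N).1 κ hκ).2.2.1 zero_nmem_Sh (fun z hz => by simp [kap_zero hκ hz])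
      (by
        rw [e3, integrable_indicator_iff hO.measurableSet]
        exact hv2.integrable_mul (memLp_wt L hρ hκ k continuousOn_const)) hψ
    refine h1.trans ?_
    rw [← integral_indicator hO.measurableSet]
    congr 1
    funext z
    rw [congrFun e3 z]
    by_cases hz : z ∈ Op ρ
    · rw [indicator_of_mem hz, indicator_of_mem hz]
      ring
    · rw [indicator_of_notMem hz, indicator_of_notMem hz, zero_mul]

theorem WL_comb (L : Lv0) {ρ : E N → ℝ} (hρ : Dom ρ) {k : ℕ} {V s : Fin N → E N → ℂ}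
    (hV : ∀ l, WL ρ k (V l)) (hm : ∀ l, Measurable (s l)) (hs : ∀ l, ContinuousOn (s l) (E0 N)) :
    WL ρ k fun z => ∑ l, s l z * V l z := by
  obtain ⟨-, hO, -, hc, -⟩ := L.c1 N ρ hρ
  obtain ⟨t1, t2, -⟩ := L.t1 N (Op ρ) hO hc.1
  refine ⟨Finset.aestronglyMeasurable_fun_sum _ fun l _ =>
    (hm l).aestronglyMeasurable.mul (hV l).1, ?_, ?_⟩
  · filter_upwards [ae_all_iff.2 fun l => (hV l).2.1] with z hz h
    exact Finset.sum_eq_zero fun l _ => by rw [hz l h, mul_zero]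
  · have h := t2 (Fin N) Finset.univ (fun l z => s l z * (V l z / (ρ z : ℂ) ^ k)) fun l _ =>
      (t1 _ (hV l).2.2).2.2.2.2.1 _ (hs l)
    simpa only [Finset.sum_div, mul_div_assoc] using h

theorem nsq_ne {z : E N} (hz : z ≠ 0) : ((‖z‖ ^ 2 : ℝ) : ℂ) ≠ 0 :=
  ofReal_ne_zero.2 (pow_ne_zero _ (norm_ne_zero_iff.2 hz))

theorem thb_cont (l : Fin N) : ContinuousOn (thb l) (E0 N) :=
  (contDiff_coord (n := 0) l).continuous.continuousOn.div
    (continuous_ofReal.comp (continuous_norm.pow 2)).continuousOn fun _ hz => nsq_ne hz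

theorem thb_meas (l : Fin N) : Measurable (thb l : E N → ℂ) :=
  (contDiff_coord (n := 0) l).continuous.measurable.div
    (continuous_ofReal.comp (continuous_norm.pow 2)).measurable

theorem conj_cont (l : Fin N) : Continuous fun z : E N => conj (z l) :=
  continuous_conj.comp (contDiff_coord (n := 0) l).continuous

theorem thb_smul (l : Fin N) {c : ℂ} (hc : c ≠ 0) (z : E N) :
    thb l (c • z) = (conj c)⁻¹ * thb l z := by
  have e : ((‖c • z‖ ^ 2 : ℝ) : ℂ) = c * conj c * ((‖z‖ ^ 2 : ℝ) : ℂ) := by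
    rw [norm_smul, mul_pow, Complex.mul_conj, Complex.normSq_eq_norm_sq, ofReal_mul]
  have hc' : conj c ≠ 0 := (map_ne_zero _).2 hc
  simp only [thb, e, PiLp.smul_apply, smul_eq_mul]
  by_cases h : ((‖z‖ ^ 2 : ℝ) : ℂ) = 0
  · rw [h]; simp
  · field_simp

theorem stepC (L : Lv0) {ρ : E N → ℝ} (hρ : Dom ρ) {k : ℕ} {m : ℤ} {V : Fin N → E N → ℂ}
    (hV : ∀ l, WL ρ k (V l) ∧ Hom (E0 N) m (1 - N) (V l)) :
    ∃ V' : Fin N → E N → ℂ, (∀ l, WL ρ k (V' l) ∧ Hom (E0 N) m (1 - N) (V' l)) ∧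
      (∀ z, ∑ l, z l * V' l z = 0) ∧
      ∀ ψ, Test (E0 N) ψ → ∑ l, ∫ z, V' l z * dzb l ψ z = ∑ l, ∫ z, V l z * dzb l ψ z := by
  classical
  have hWL := (L.c1 N ρ hρ).2.2.2.2.2.2.2.2.2.2.2 k
  obtain ⟨t1, -, -, t4, -⟩ := L.t1 N (E0 N) isOpen_E0 cone_E0.1
  let s : E N → ℂ := fun z => ∑ i, thb i z * V i z
  have hs : WL ρ k s := WL_comb L hρ (fun l => (hV l).1) thb_meas thb_cont
  have hs2 := hWL s hs
  have hsH : Hom (E0 N) m (-N) s := by
    intro c hc z hz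
    have hc' : conj c ≠ 0 := (map_ne_zero _).2 hc
    simp only [s, Finset.mul_sum]
    refine Finset.sum_congr rfl fun i _ => ?_
    rw [thb_smul i hc, (hV i).2 c hc z hz, zpow_sub₀ hc', zpow_neg, zpow_one]
    field_simp
  refine ⟨fun l z => V l z - conj (z l) * s z, fun l => ⟨?_, ?_⟩, fun z => ?_, fun ψ hψ => ?_⟩
  · have h := WL_comb L hρ (s := fun i z => (if i = l then 1 else 0) - conj (z l) * thb i z)
      (fun l => (hV l).1) (fun i => measurable_const.sub ((conj_cont l).measurable.mul (thb_meas i)))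
      fun i => continuousOn_const.sub ((conj_cont l).continuousOn.mul (thb_cont i))
    have e : (fun z => ∑ i, ((if i = l then 1 else 0) - conj (z l) * thb i z) * V i z) =
        fun z => V l z - conj (z l) * s z := by
      funext z
      simp [s, sub_mul, Finset.mul_sum, mul_assoc]
    rwa [e] at h
  · intro c hc z hz
    have hc' : conj c ≠ 0 := (map_ne_zero _).2 hc
    simp only [PiLp.smul_apply, smul_eq_mul, map_mul]
    rw [(hV l).2 c hc z hz, hsH c hc z hz, zpow_sub₀ hc', zpow_neg, zpow_one]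
    field_simp
  · by_cases hz : z = 0
    · subst hz
      simp
    · have e : ∑ l, z l * (conj (z l) * s z) = ∑ l, z l * V l z := by
        simp only [← mul_assoc]
        rw [← Finset.sum_mul, ← norm_sq_eq]
        simp only [s, Finset.mul_sum, thb]
        refine Finset.sum_congr rfl fun i _ => ?_
        have := nsq_ne hz
        field_simp
      simp only [mul_sub, Finset.sum_sub_distrib, e, sub_self]
  · have hT : ∀ l, Test (E0 N) (dzb l ψ) := fun l => ((t4 ψ hψ).2.2.1 l).2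
    have hT2 : ∀ l, Test (E0 N) fun z => conj (z l) * dzb l ψ z := fun l =>
      (t4 _ (hT l)).1 _ fun z _ => (contDiffAt_conj (contDiff_coord l).contDiffAt).contDiffWithinAt
    have hE := ((L.t2 N m (-N)).1 (E0 N) isOpen_E0 cone_E0).2.2.2.1 s hs2
      (((L.t2 N m (-N)).1 (E0 N) isOpen_E0 cone_E0).1 s hsH) ψ hψ
    have e0 : ∑ l, ∫ z, s z * (conj (z l) * dzb l ψ z) = 0 := by
      have h1 : ∀ l, ∫ z, s z * (conj (z l) * dzb l ψ z) =
          ∫ z in E0 N, s z * (conj (z l) * dzb l ψ z) := fun l =>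
        ((t1 s hs2).2.2.1 _ (hT2 l).1.continuous (hT2 l).2.1 (hT2 l).2.2).2.symm
      simp only [h1]
      rw [← integral_finset_sum _ fun l _ => (integrable_test L hs2 (hT2 l)).integrableOn]
      simp only [← Finset.mul_sum]
      rw [hE]
      simp
    rw [← sub_zero (∑ l, ∫ z, V l z * dzb l ψ z), ← e0, ← Finset.sum_sub_distrib]
    refine Finset.sum_congr rfl fun l _ => ?_
    rw [← integral_sub (integrable_test L (hWL _ (hV l).1) (hT l)) (integrable_test L hs2 (hT2 l))]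
    congr 1
    funext z
    ring

theorem div (L : Lv0) (h : StmtPOI) : StmtDIV := by
  intro N hN ρ φ hρ hφ κ hκ k m Θ hm hΘ hA h0
  obtain ⟨j, hj⟩ := Int.eq_ofNat_of_zero_le (show 0 ≤ m + N by omega)
  obtain ⟨v, hv, hv2⟩ := stepA L h hN hρ hφ hκ j k hΘ h0
  choose V hV1 hV2 hV3 using fun l => stepB L hρ hκ k m (1 - N) (hv l).1 (hv l).2
  obtain ⟨V', a1, a2, a3⟩ := stepC L hρ fun l => ⟨hV1 l, hV2 l⟩
  refine ⟨V', a1, a2, fun ψ hψ => ?_⟩
  have hO := (L.c1 N ρ hρ).2.1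
  have hΘ2 := (L.c1 N ρ hρ).2.2.2.2.2.2.2.2.2.2.2 k Θ hΘ
  have hT : ∀ l, Test (E0 N) (dzb l ψ) := fun l =>
    (((L.t1 N (E0 N) isOpen_E0 cone_E0.1).2.2.2.1 ψ hψ).2.2.1 l).2
  obtain ⟨s1, s2⟩ := (L.t4 N (-j) 0).2.2.1 ψ hψ
  have i1 : -m - (N : ℤ) = -(j : ℤ) := by omega
  have i2 : -(1 - (N : ℤ)) - N = 0 - 1 := by omega
  have i3 : -(-(N : ℤ)) - N = 0 := by omega
  have e1 : ∫ z, Θ z * ψ z = ∫ z, (κ (‖z‖ ^ 2) : ℂ) * Θ z * Pp (-j) 0 ψ z := by
    have h1 := (L.t4 N m (-N)).2.2.2.1 (fun y => (κ (‖y‖ ^ 2) : ℂ) * Θ y) ψ (Sh N)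
      ((L.t3.2 N).1 κ hκ).2.2.1 zero_nmem_Sh (fun z hz => by simp [kap_zero hκ hz])
      (by simpa using integrable_kap L hκ hΘ2 (contDiffOn_const (c := 1))) hψ
    rw [i1, i3] at h1
    rw [← h1]
    refine integral_congr_ae ?_
    filter_upwards [((L.t4 N m (-N)).2.2.2.2 κ hκ Θ hΘ.1).2.1 (by omega) hA] with z hz
    rw [← hz]
    rfl
  rw [a3 ψ hψ, e1, hv2 _ s1 ((L.t4 N (-j) 0).1 ψ)]
  refine Finset.sum_congr rfl fun l _ => ?_
  rw [hV3 l _ (hT l), i1, i2]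
  exact setIntegral_congr_fun hO.measurableSet fun z hz => by
    simp only [(s2 l z hz.1).2]

end

end Pool.Agent.MP_fcd29e_an.H96
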