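import Pool.Agent.MP_fcd29e_an.H31.Spec3
import Pool.Agent.MP_fcd29e_an.H96.DIV

/-! The bound on homogeneous functions (row DV0). -/

set_option autoImplicit false

namespace Pool.Agent.MP_fcd29e_an.H96

open MeasureTheory Complex Set Filter Topology Metric Pool.Agent.MP_fcd29e_an.H81
  Pool.Agent.MP_fcd29e_an.H31
open scoped ContDiff ComplexConjugate ENNReal NNReal

noncomputable section

namespace DV0

variable {N : ℕ}

/-- The weighted norm with the cut-off. -/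
def Iw (ρ : E N → ℝ) (κ : ℝ → ℝ) (s : ℝ) (u : E N → ℂ) : ℝ :=
  ∫ z in Op ρ, κ (‖z‖ ^ 2) * ρ z ^ (2 * s) * ‖u z‖ ^ 2

/-- The weighted norm on the shell. -/
def Sw (ρ : E N → ℝ) (s : ℝ) (u : E N → ℂ) : ℝ :=
  ∫ z in Sh N ∩ Op ρ, ρ z ^ (2 * s) * ‖u z‖ ^ 2

theorem sh_ne {z : E N} (hz : z ∈ Sh N) : z ≠ 0 := fun e => zero_nmem_Sh (e ▸ hz)

theorem sh_sub : Sh N ⊆ E0 N := fun _ hz => sh_ne hz

theorem wt_cont {ρ : E N → ℝ} (hρ : Dom ρ) {s : ℝ} (hs : 0 < s) {u : E N → ℂ}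
    (hu : ContinuousOn u (E0 N)) :
    ContinuousOn (fun z => ρ z ^ (2 * s) * ‖u z‖ ^ 2) (E0 N) :=
  ((Real.continuous_rpow_const (by positivity)).comp_continuousOn
    hρ.smooth.continuousOn).mul (hu.norm.pow 2)

theorem wt_nonneg {ρ : E N → ℝ} (s : ℝ) (u : E N → ℂ) {z : E N} (hz : z ∈ Op ρ) :
    0 ≤ ρ z ^ (2 * s) * ‖u z‖ ^ 2 :=
  mul_nonneg (Real.rpow_nonneg hz.2.le _) (sq_nonneg _)

theorem sw_int {ρ : E N → ℝ} (hρ : Dom ρ) (hK : IsCompact (Sh N)) {s : ℝ} (hs : 0 < s)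
    {u : E N → ℂ} (hu : ContinuousOn u (E0 N)) :
    IntegrableOn (fun z => ρ z ^ (2 * s) * ‖u z‖ ^ 2) (Sh N ∩ Op ρ) :=
  (((wt_cont hρ hs hu).mono sh_sub).integrableOn_compact hK).mono_set inter_subset_left

theorem iw_int {ρ : E N → ℝ} (hρ : Dom ρ) (hK : IsCompact (Sh N)) {κ : ℝ → ℝ} (hκ : Kap κ)
    {s : ℝ} (hs : 0 < s) {u : E N → ℂ} (hu : ContinuousOn u (E0 N)) :
    IntegrableOn (fun z => κ (‖z‖ ^ 2) * ρ z ^ (2 * s) * ‖u z‖ ^ 2) (Op ρ) := by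
  have hc : Continuous fun z : E N => κ (‖z‖ ^ 2) :=
    hκ.smooth.continuous.comp (continuous_norm.pow 2)
  have h1 : IntegrableOn (fun z => κ (‖z‖ ^ 2) * (ρ z ^ (2 * s) * ‖u z‖ ^ 2)) (Sh N) :=
    ((hc.continuousOn.mul (wt_cont hρ hs hu)).mono sh_sub).integrableOn_compact hK
  have h2 : Integrable fun z => κ (‖z‖ ^ 2) * (ρ z ^ (2 * s) * ‖u z‖ ^ 2) := by
    refine (integrableOn_iff_integrable_of_support_subset fun z hz => ?_).1 h1
    by_contra h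
    exact hz (by simp only [kap_zero hκ h, zero_mul])
  simpa only [mul_assoc] using h2.integrableOn

theorem iw_nonneg {ρ : E N → ℝ} (hO : IsOpen (Op ρ)) {κ : ℝ → ℝ} (hκ : Kap κ) (s : ℝ)
    (u : E N → ℂ) : 0 ≤ Iw ρ κ s u :=
  setIntegral_nonneg hO.measurableSet fun z hz => by
    rw [mul_assoc]
    exact mul_nonneg (hκ.nonneg _) (wt_nonneg s u hz)

theorem sw_nonneg {ρ : E N → ℝ} (hO : IsOpen (Op ρ)) (hK : IsCompact (Sh N)) (s : ℝ)
    (u : E N → ℂ) : 0 ≤ Sw ρ s u :=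
  setIntegral_nonneg (hK.measurableSet.inter hO.measurableSet) fun _ hz => wt_nonneg s u hz.2

theorem real_le (C : ℝ≥0) {x y : ℝ} (hy : 0 ≤ y)
    (h : ENNReal.ofReal x ≤ C * ENNReal.ofReal y) : x ≤ C * y := by
  rw [← ENNReal.ofReal_coe_nnreal, ← ENNReal.ofReal_mul (NNReal.coe_nonneg C)] at h
  exact (ENNReal.ofReal_le_ofReal_iff (mul_nonneg (NNReal.coe_nonneg C) hy)).1 h

/-- The shell is controlled by the cut-off. -/
theorem shell (L : Lv0) {ρ : E N → ℝ} (hρ : Dom ρ) {κ : ℝ → ℝ} (hκ : Kap κ) {s : ℝ} (hs : 0 < s)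
    (a b : ℤ) : ∃ C : ℝ, 0 ≤ C ∧ ∀ u : E N → ℂ, ContinuousOn u (E0 N) → Hom (E0 N) a b u →
      Sw ρ s u ≤ C * Iw ρ κ s u := by
  obtain ⟨-, -, hK, h0, hsh, -⟩ := (L.t3.2 N).1 κ hκ
  obtain ⟨-, hO, -, hc, -⟩ := L.c1 N ρ hρ
  obtain ⟨C, hC⟩ := hsh (2 * (a + b)) (Sh N) hK h0
  refine ⟨C, C.2, fun u hu hh => ?_⟩
  have key := hC ((Op ρ).indicator fun z => ENNReal.ofReal (ρ z ^ (2 * s) * ‖u z‖ ^ 2))
    fun r hr => Eventually.of_forall fun z => by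
      have hr' : (r : ℂ) ≠ 0 := ofReal_ne_zero.2 hr.ne'
      have e : r • z = (r : ℂ) • z := (Complex.coe_smul r z).symm
      by_cases hz : z ∈ Op ρ
      · rw [e, indicator_of_mem (hc.2 _ hr' z hz), indicator_of_mem hz, hρ.inv _ hr',
          hh _ hr' z hz.1, ← ENNReal.ofReal_mul (zpow_nonneg hr.le _)]
        congr 1
        rw [norm_mul, norm_mul, norm_zpow, norm_zpow, RCLike.norm_conj, norm_real,
          Real.norm_of_nonneg hr.le, ← zpow_add₀ hr.ne', mul_pow, mul_comm 2 (a + b), zpow_mul]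
        simp only [zpow_ofNat]
        ring
      · have hz' : r • z ∉ Op ρ := by
          intro h
          rw [e] at h
          have := hc.2 _ (inv_ne_zero hr') _ h
          rw [smul_smul, inv_mul_cancel₀ hr', one_smul] at this
          exact hz this
        rw [indicator_of_notMem hz', indicator_of_notMem hz, mul_zero]
  have e1 : ∫⁻ z in Sh N, (Op ρ).indicator
      (fun z => ENNReal.ofReal (ρ z ^ (2 * s) * ‖u z‖ ^ 2)) z = ENNReal.ofReal (Sw ρ s u) := by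
    rw [lintegral_indicator hO.measurableSet, Measure.restrict_restrict hO.measurableSet,
      inter_comm, Sw, ofReal_integral_eq_lintegral_ofReal (sw_int hρ hK hs hu)]
    exact (ae_restrict_iff' (hK.measurableSet.inter hO.measurableSet)).2
      (Eventually.of_forall fun z hz => wt_nonneg s u hz.2)
  have e2 : ∫⁻ z, ENNReal.ofReal (κ (‖z‖ ^ 2)) * (Op ρ).indicator
      (fun z => ENNReal.ofReal (ρ z ^ (2 * s) * ‖u z‖ ^ 2)) z = ENNReal.ofReal (Iw ρ κ s u) := by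
    rw [Iw, ofReal_integral_eq_lintegral_ofReal (iw_int hρ hK hκ hs hu),
      ← lintegral_indicator hO.measurableSet]
    · refine lintegral_congr fun z => ?_
      by_cases hz : z ∈ Op ρ
      · rw [indicator_of_mem hz, indicator_of_mem hz, ← ENNReal.ofReal_mul (hκ.nonneg _), mul_assoc]
      · rw [indicator_of_notMem hz, indicator_of_notMem hz, mul_zero]
    · exact (ae_restrict_iff' hO.measurableSet).2 (Eventually.of_forall fun z hz => by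
        show 0 ≤ κ (‖z‖ ^ 2) * ρ z ^ (2 * s) * ‖u z‖ ^ 2
        rw [mul_assoc]
        exact mul_nonneg (hκ.nonneg _) (wt_nonneg s u hz))
  rw [e1, e2] at key
  exact real_le C (iw_nonneg hO hκ s u) key

theorem norm_fderiv_le (w : E N → ℂ) (z : E N) :
    ‖fderiv ℝ w z‖ ≤ ∑ i, (‖dz i w z‖ + ‖dzb i w z‖) := by
  refine ContinuousLinearMap.opNorm_le_bound _
    (Finset.sum_nonneg fun _ _ => by positivity) fun v => ?_
  rw [fderiv_eq, Finset.sum_mul]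
  refine (norm_sum_le _ _).trans (Finset.sum_le_sum fun i _ => ?_)
  have hv : ‖v i‖ ≤ ‖v‖ := PiLp.norm_apply_le v i
  refine (norm_add_le _ _).trans ?_
  rw [norm_mul, norm_mul, RCLike.norm_conj]
  nlinarith [norm_nonneg (dz i w z), norm_nonneg (dzb i w z)]

theorem sq_fderiv_le (w : E N → ℂ) (z : E N) :
    ‖fderiv ℝ w z‖ ^ 2 ≤ 2 * N * (∑ i, ‖dz i w z‖ ^ 2 + ∑ i, ‖dzb i w z‖ ^ 2) := by
  have h1 := pow_le_pow_left₀ (norm_nonneg _) (norm_fderiv_le w z) 2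
  have h2 := sq_sum_le_card_mul_sum_sq (s := Finset.univ)
    (f := fun i : Fin N => ‖dz i w z‖ + ‖dzb i w z‖)
  rw [Finset.card_univ, Fintype.card_fin] at h2
  have h3 : ∑ i, (‖dz i w z‖ + ‖dzb i w z‖) ^ 2 ≤
      2 * (∑ i, ‖dz i w z‖ ^ 2 + ∑ i, ‖dzb i w z‖ ^ 2) := by
    rw [← Finset.sum_add_distrib, Finset.mul_sum]
    exact Finset.sum_le_sum fun i _ => by nlinarith [sq_nonneg (‖dz i w z‖ - ‖dzb i w z‖)]
  have h4 := mul_le_mul_of_nonneg_left h3 (Nat.cast_nonneg (α := ℝ) N)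
  linarith

theorem dzb_kp {κ : ℝ → ℝ} (hκ : Kap κ) (l : Fin N) (z : E N) :
    dzb l (fun z : E N => (κ (‖z‖ ^ 2) : ℂ)) z = (deriv κ (‖z‖ ^ 2) : ℝ) * z l := by
  have h1 : DifferentiableAt ℝ (fun z : E N => ‖z‖ ^ 2) z :=
    ((contDiff_norm_sq ℝ (n := 1)).differentiable one_ne_zero) z
  have h2 : HasDerivAt κ (deriv κ (‖z‖ ^ 2)) (‖z‖ ^ 2) :=
    ((hκ.smooth.differentiable (by simp)) _).hasDerivAt
  have := dzb_comp_real l (r := fun z : E N => ‖z‖ ^ 2) h1 h2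
  rw [dzb_normSq] at this
  exact this

theorem off {ψ : E N → ℂ} (h : tsupport ψ ⊆ Sh N) {z : E N} (hz : z ∉ Sh N) :
    ψ z = 0 ∧ fderiv ℝ ψ z = 0 := by
  have e : ψ =ᶠ[𝓝 z] 0 := notMem_tsupport_iff_eventuallyEq.1 fun h' => hz (h h')
  exact ⟨e.eq_of_nhds, by rw [e.fderiv_eq]; simp⟩

/-- The weighted norm of the cut function. -/
theorem wi_le (L : Lv0) {ρ : E N → ℝ} (hρ : Dom ρ) {κ : ℝ → ℝ} (hκ : Kap κ) {s : ℝ} (hs : 0 < s) :
    ∃ B : ℝ, 0 ≤ B ∧ ∀ u : E N → ℂ, ContDiffOn ℝ ∞ u (E0 N) →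
      WI ρ s (fun z => u z * (κ (‖z‖ ^ 2) : ℂ)) ≤ ENNReal.ofReal
        (B * (Sw ρ s u + (∑ i, Sw ρ s (dz i u) + ∑ i, Sw ρ s (dzb i u)))) := by
  obtain ⟨hT, hS, hK, h0, -⟩ := (L.t3.2 N).1 κ hκ
  obtain ⟨-, hO, -⟩ := L.c1 N ρ hρ
  obtain ⟨B1, hB1⟩ := hK.exists_bound_of_continuousOn hT.1.continuous.continuousOn
  obtain ⟨B2, hB2⟩ := hK.exists_bound_of_continuousOn
    (hT.1.continuous_fderiv (by simp)).continuousOn
  refine ⟨B1 ^ 2 + 2 * B2 ^ 2 + 4 * N * B1 ^ 2, by positivity, fun u hu => ?_⟩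
  set B : ℝ := B1 ^ 2 + 2 * B2 ^ 2 + 4 * N * B1 ^ 2 with hB
  have hB0 : 0 ≤ B := by positivity
  have hm := hK.measurableSet.inter hO.measurableSet
  have c1 : ∀ i, ContinuousOn (dz i u) (E0 N) := fun i z hz =>
    (contDiffAt_dz i (contDiffAt_E0 hu hz)).continuousAt.continuousWithinAt
  have c2 : ∀ i, ContinuousOn (dzb i u) (E0 N) := fun i z hz =>
    (contDiffAt_dzb i (contDiffAt_E0 hu hz)).continuousAt.continuousWithinAt
  have i0 := sw_int hρ hK hs hu.continuousOn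
  have i1 : IntegrableOn (fun z => ∑ i, ρ z ^ (2 * s) * ‖dz i u z‖ ^ 2) (Sh N ∩ Op ρ) :=
    integrable_finsetSum _ fun i _ => sw_int hρ hK hs (c1 i)
  have i2 : IntegrableOn (fun z => ∑ i, ρ z ^ (2 * s) * ‖dzb i u z‖ ^ 2) (Sh N ∩ Op ρ) :=
    integrable_finsetSum _ fun i _ => sw_int hρ hK hs (c2 i)
  have i12 : IntegrableOn (fun z => ∑ i, ρ z ^ (2 * s) * ‖dz i u z‖ ^ 2 +
      ∑ i, ρ z ^ (2 * s) * ‖dzb i u z‖ ^ 2) (Sh N ∩ Op ρ) := i1.add i2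
  have i012 : IntegrableOn (fun z => B * (ρ z ^ (2 * s) * ‖u z‖ ^ 2 +
      (∑ i, ρ z ^ (2 * s) * ‖dz i u z‖ ^ 2 + ∑ i, ρ z ^ (2 * s) * ‖dzb i u z‖ ^ 2)))
      (Sh N ∩ Op ρ) := (i0.add i12).const_mul B
  have e : B * (Sw ρ s u + (∑ i, Sw ρ s (dz i u) + ∑ i, Sw ρ s (dzb i u))) =
      ∫ z in Sh N ∩ Op ρ, B * (ρ z ^ (2 * s) * ‖u z‖ ^ 2 +
        (∑ i, ρ z ^ (2 * s) * ‖dz i u z‖ ^ 2 + ∑ i, ρ z ^ (2 * s) * ‖dzb i u z‖ ^ 2)) := by
    rw [integral_const_mul, integral_add i0 i12, integral_add i1 i2,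
      integral_finsetSum _ fun i _ => sw_int hρ hK hs (c1 i),
      integral_finsetSum _ fun i _ => sw_int hρ hK hs (c2 i)]
    rfl
  rw [e, ofReal_integral_eq_lintegral_ofReal i012
    ((ae_restrict_iff' hm).2 (Eventually.of_forall fun z hz =>
      mul_nonneg hB0 (add_nonneg (wt_nonneg s u hz.2) (add_nonneg
        (Finset.sum_nonneg fun i _ => wt_nonneg s _ hz.2)
        (Finset.sum_nonneg fun i _ => wt_nonneg s _ hz.2))))),
    ← Measure.restrict_restrict hK.measurableSet, ← lintegral_indicator hK.measurableSet]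
  refine setLIntegral_mono_ae' hO.measurableSet (Eventually.of_forall fun z hz => ?_)
  have hsupp : tsupport (fun z => u z * (κ (‖z‖ ^ 2) : ℂ)) ⊆ Sh N :=
    tsupport_mul_subset_right.trans hS
  by_cases hzS : z ∈ Sh N
  · rw [indicator_of_mem hzS]
    refine ENNReal.ofReal_le_ofReal ?_
    have du := ContDiffAt.da (contDiffAt_E0 hu (sh_ne hzS))
    have dk := ContDiffAt.da (hT.1.contDiffAt (x := z))
    have b1 := hB1 z hzS
    have b2 := hB2 z hzS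
    have n1 : ‖u z * (κ (‖z‖ ^ 2) : ℂ)‖ ≤ ‖u z‖ * B1 := by
      rw [norm_mul]
      exact mul_le_mul_of_nonneg_left b1 (norm_nonneg _)
    have n2 : ‖fderiv ℝ (fun z => u z * (κ (‖z‖ ^ 2) : ℂ)) z‖ ≤
        ‖u z‖ * B2 + B1 * ‖fderiv ℝ u z‖ := by
      rw [fderiv_fun_mul du dk]
      refine (norm_add_le _ _).trans (add_le_add ?_ ?_)
      · rw [norm_smul]
        exact mul_le_mul_of_nonneg_left b2 (norm_nonneg _)
      · rw [norm_smul]
        exact mul_le_mul_of_nonneg_right b1 (norm_nonneg _)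
    have m1 := pow_le_pow_left₀ (norm_nonneg _) n1 2
    have m2 := pow_le_pow_left₀ (norm_nonneg _) n2 2
    have m3 := mul_le_mul_of_nonneg_left (sq_fderiv_le u z) (sq_nonneg B1)
    set D := ∑ i, ‖dz i u z‖ ^ 2 + ∑ i, ‖dzb i u z‖ ^ 2 with hD
    have hD0 : 0 ≤ D := by positivity
    have m4 : (‖u z‖ * B2 + B1 * ‖fderiv ℝ u z‖) ^ 2 ≤
        2 * B2 ^ 2 * ‖u z‖ ^ 2 + 2 * (B1 ^ 2 * ‖fderiv ℝ u z‖ ^ 2) := by
      nlinarith [sq_nonneg (‖u z‖ * B2 - B1 * ‖fderiv ℝ u z‖)]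
    have m5 : ‖u z * (κ (‖z‖ ^ 2) : ℂ)‖ ^ 2 +
        ‖fderiv ℝ (fun z => u z * (κ (‖z‖ ^ 2) : ℂ)) z‖ ^ 2 ≤ B * (‖u z‖ ^ 2 + D) := by
      have p1 : 0 ≤ (N : ℝ) * B1 ^ 2 * ‖u z‖ ^ 2 := by positivity
      have p2 : 0 ≤ B1 ^ 2 * D := by positivity
      have p3 : 0 ≤ B2 ^ 2 * D := by positivity
      rw [hB]
      nlinarith
    have m6 := mul_le_mul_of_nonneg_left m5 (Real.rpow_nonneg hz.2.le (2 * s))
    refine m6.trans (le_of_eq ?_)
    rw [hD, ← Finset.mul_sum, ← Finset.mul_sum]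
    ring
  · obtain ⟨z1, z2⟩ := off hsupp hzS
    simp only [z1, z2, norm_zero]
    simp

/-- The pairing with the cut function. -/
theorem dv_eq (L : Lv0) {κ : ℝ → ℝ} (hκ : Kap κ) {X : Fin N → E N → ℂ}
    (hX : ∀ l, L2 (E0 N) (X l)) (hz : ∀ z, z ≠ 0 → ∑ l, z l * X l z = 0) {u : E N → ℂ}
    (hu : ContDiffOn ℝ ∞ u (E0 N)) :
    Dv X (fun z => u z * (κ (‖z‖ ^ 2) : ℂ)) =
      ∑ l, ∫ z, (κ (‖z‖ ^ 2) : ℂ) * X l z * dzb l u z := by
  obtain ⟨hT, hS, -⟩ := (L.t3.2 N).1 κ hκ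
  have T := (L.t1 N (E0 N) isOpen_E0 cone_E0.1).2.2.2.1
  have hψ := (T _ hT).1 u hu
  have c2 : ∀ i, ContDiffOn ℝ ∞ (dzb i u) (E0 N) := fun i z hz =>
    (contDiffAt_dzb i (contDiffAt_E0 hu hz)).contDiffWithinAt
  rw [Dv, ← integral_finsetSum _ fun l _ => integrable_test L (hX l) ((T _ hψ).2.2.1 l).2,
    ← integral_finsetSum _ fun l _ => integrable_kap L hκ (hX l) (c2 l)]
  refine integral_congr_ae (Eventually.of_forall fun z => ?_)
  by_cases hzS : z ∈ Sh N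
  · have du := ContDiffAt.da (contDiffAt_E0 hu (sh_ne hzS))
    have dk := ContDiffAt.da (hT.1.contDiffAt (x := z))
    simp only [dzb_mul _ du dk, dzb_kp hκ]
    have : ∑ l, X l z * (dzb l u z * (κ (‖z‖ ^ 2) : ℂ) +
        u z * ((deriv κ (‖z‖ ^ 2) : ℝ) * z l)) =
        ∑ l, (κ (‖z‖ ^ 2) : ℂ) * X l z * dzb l u z +
          u z * (deriv κ (‖z‖ ^ 2) : ℝ) * ∑ l, z l * X l z := by
      rw [Finset.mul_sum, ← Finset.sum_add_distrib]
      exact Finset.sum_congr rfl fun l _ => by ring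
    rw [this, hz z (sh_ne hzS), mul_zero, add_zero]
  · obtain ⟨-, z2⟩ := off (tsupport_mul_subset_right.trans hS :
      tsupport (fun z => u z * (κ (‖z‖ ^ 2) : ℂ)) ⊆ Sh N) hzS
    simp [dzb, z2, kap_zero hκ hzS]

theorem arith {S0 S1 S2 P0 P1 A D x y z : ℝ} (hS0 : 0 ≤ S0) (hS1 : 0 ≤ S1) (hS2 : 0 ≤ S2)
    (hP0 : 0 ≤ P0) (hP1 : 0 ≤ P1) (hA : 0 ≤ A) (hD : 0 ≤ D) (hx : x ≤ S0 * (P0 * A))
    (hy : y ≤ S1 * (P1 * D)) (hz : z ≤ S2 * A) :
    x + (y + z) ≤ (S0 * P0 + S2 + S1 * P1) * (A + D) := by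
  have q1 : 0 ≤ S0 * P0 * D := by positivity
  have q2 : 0 ≤ S2 * D := by positivity
  have q3 : 0 ≤ S1 * P1 * A := by positivity
  nlinarith

end DV0

open DV0 in
theorem dv0 (L : Lv2) (h : StmtPOIs) : StmtDV0 := by
  intro N hN ρ φ hρ hφ κ hκ s hs j X hX hz hB
  have L0 := L.toLv0
  obtain ⟨hT, hS, hK, h0, -⟩ := (L0.t3.2 N).1 κ hκ
  obtain ⟨-, hO, -⟩ := L0.c1 N ρ hρ
  obtain ⟨C0, hC0⟩ := hB (Sh N) hK h0
  obtain ⟨B, hB0, hW⟩ := wi_le L0 hρ hκ hs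
  obtain ⟨S0, hS0, s0⟩ := shell L0 hρ hκ hs (-j) 0
  obtain ⟨S1, hS1, s1⟩ := shell L0 hρ hκ hs (-j - 1) 0
  obtain ⟨S2, hS2, s2⟩ := shell L0 hρ hκ hs (-j) (0 - 1)
  obtain ⟨P0, hP0, p0⟩ := h N hN ρ φ hρ hφ κ hκ j s hs.le
  obtain ⟨P1, hP1, p1⟩ := h N hN ρ φ hρ hφ κ hκ (j + 1) s hs.le
  have hQ : 0 ≤ S0 * P0 + S2 + S1 * P1 := by positivity
  refine ⟨C0 * B * (S0 * P0 + S2 + S1 * P1), by positivity, fun w hw hh => ?_⟩
  obtain ⟨c, hc, hp⟩ := p0 w hw hh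
  have hu : ContDiffOn ℝ ∞ (fun z => w z - c) (E0 N) := hw.sub contDiffOn_const
  have huh : Hom (E0 N) (-j) 0 fun z => w z - c := by
    intro a ha z hz'
    by_cases hj : j = 0
    · subst hj
      have := hh a ha z hz'
      simp only [Nat.cast_zero, neg_zero, zpow_zero, one_mul] at this ⊢
      rw [this]
    · rw [hc hj]
      simpa only [sub_zero] using hh a ha z hz'
  have ef : ∀ z, fderiv ℝ (fun z => w z - c) z = fderiv ℝ w z := fun z => fderiv_sub_const c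
  have e1 : ∀ i, dz i (fun z => w z - c) = dz i w := fun i => funext fun z => by
    simp only [dz, ef]
  have e2 : ∀ i, dzb i (fun z => w z - c) = dzb i w := fun i => funext fun z => by
    simp only [dzb, ef]
  have T := (L0.t1 N (E0 N) isOpen_E0 cone_E0.1).2.2.2.1
  have hψ := (T _ hT).1 _ hu
  have k1 := hC0 _ ⟨hψ.1, hψ.2.1⟩ (tsupport_mul_subset_right.trans hS)
  have k2 := hW _ hu
  rw [dv_eq L0 hκ hX hz hu] at k1
  simp only [e1, e2] at k1 k2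
  have c1 : ∀ i, ContDiffOn ℝ ∞ (dz i w) (E0 N) := fun i z hz =>
    (contDiffAt_dz i (contDiffAt_E0 hw hz)).contDiffWithinAt
  have c2 : ∀ i, ContDiffOn ℝ ∞ (dzb i w) (E0 N) := fun i z hz =>
    (contDiffAt_dzb i (contDiffAt_E0 hw hz)).contDiffWithinAt
  have hd := ((L0.pf N).1 (E0 N) (-j) 0 w isOpen_E0 cone_E0 hh).1
  set A : ℝ := ∑ l, Iw ρ κ s (dzb l w) with hA
  set D : ℝ := ∑ l, ∑ i, Iw ρ κ s (dz i (dzb l w)) with hD
  have hA0 : 0 ≤ A := Finset.sum_nonneg fun l _ => iw_nonneg hO hκ s _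
  have hD0 : 0 ≤ D :=
    Finset.sum_nonneg fun l _ => Finset.sum_nonneg fun i _ => iw_nonneg hO hκ s _
  have t0 : Sw ρ s (fun z => w z - c) ≤ S0 * (P0 * A) :=
    (s0 _ hu.continuousOn huh).trans (mul_le_mul_of_nonneg_left hp hS0)
  have t2 : ∑ i, Sw ρ s (dzb i w) ≤ S2 * A := by
    rw [hA, Finset.mul_sum]
    exact Finset.sum_le_sum fun i _ => s2 _ (c2 i).continuousOn (hd i).2
  have t1 : ∑ i, Sw ρ s (dz i w) ≤ S1 * (P1 * D) := by
    rw [hD, Finset.sum_comm, Finset.mul_sum, Finset.mul_sum]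
    refine Finset.sum_le_sum fun i _ => (s1 _ (c1 i).continuousOn (hd i).1).trans
      (mul_le_mul_of_nonneg_left ?_ hS1)
    obtain ⟨c', hc', hp'⟩ := p1 (dz i w) (c1 i) (by
      rw [show (-((j + 1 : ℕ) : ℤ)) = -j - 1 by push_cast; ring]
      exact (hd i).1)
    rw [hc' (Nat.succ_ne_zero j)] at hp'
    simp only [sub_zero] at hp'
    refine hp'.trans (le_of_eq ?_)
    congr 1
    refine Finset.sum_congr rfl fun l _ => setIntegral_congr_fun hO.measurableSet fun z hz => ?_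
    simp only [dz_dzb_comm i l (contDiffAt_E0 hw hz.1)]
  have hY : B * (Sw ρ s (fun z => w z - c) + (∑ i, Sw ρ s (dz i w) + ∑ i, Sw ρ s (dzb i w))) ≤
      B * ((S0 * P0 + S2 + S1 * P1) * (A + D)) := by
    exact mul_le_mul_of_nonneg_left (arith hS0 hS1 hS2 hP0 hP1 hA0 hD0 t0 t1 t2) hB0
  have k2' := k2.trans (ENNReal.ofReal_le_ofReal hY)
  have k3 := k1.trans (mul_le_mul' le_rfl k2')
  have k4 := real_le C0 (mul_nonneg hB0 (mul_nonneg hQ (add_nonneg hA0 hD0))) k3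
  have k5 : (C0 : ℝ) * (B * ((S0 * P0 + S2 + S1 * P1) * (A + D))) =
      C0 * B * (S0 * P0 + S2 + S1 * P1) * (A + D) := by simp only [mul_assoc]
  rw [k5] at k4
  exact k4

end

end Pool.Agent.MP_fcd29e_an.H96
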