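import Pool.Agent.MP_fcd29e_an.H81.Spec2

/-! Second-order tangency (row D2). -/

set_option autoImplicit false

namespace Pool.Agent.MP_fcd29e_an.H96

open Pool.Agent.MP_fcd29e_an.H81 MeasureTheory Complex Set Filter Topology Metric Asymptotics
open scoped ContDiff ComplexConjugate ENNReal NNReal

noncomputable section

variable {N : ℕ}

theorem quad_bound {F : Type} [NormedAddCommGroup F] [NormedSpace ℝ F] {g : ℝ → F}
    (hg : ContDiffAt ℝ ∞ g 0) (h0 : g 0 = 0) (h1 : deriv g 0 = 0) :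
    ∃ C : ℝ, 0 ≤ C ∧ ∀ᶠ t in 𝓝 (0 : ℝ), ‖g t‖ ≤ C * t ^ 2 := by
  have hg2 : ContDiffAt ℝ 2 g 0 := hg.of_le (WithTop.coe_le_coe.2 le_top)
  have hd : DifferentiableAt ℝ (deriv g) 0 := by
    have h := (hg2.fderiv_right (m := 1) (by norm_num)).clm_apply (contDiffAt_const (c := (1 : ℝ)))
    exact h.differentiableAt (by norm_num)
  obtain ⟨C, hC, h2⟩ := hd.isBigO_sub.exists_pos
  have h3 := (hg2.eventually (by simp)).and h2.bound
  obtain ⟨δ, hδ, h4⟩ := Metric.eventually_nhds_iff_ball.1 h3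
  refine ⟨C, hC.le, Metric.eventually_nhds_iff_ball.2 ⟨δ, hδ, fun t ht => ?_⟩⟩
  have hsub : closedBall (0 : ℝ) ‖t‖ ⊆ ball 0 δ :=
    closedBall_subset_ball (by simpa using ht)
  have h5 := Convex.norm_image_sub_le_of_norm_deriv_le (f := g) (C := C * ‖t‖)
    (s := closedBall (0 : ℝ) ‖t‖) (x := 0) (y := t)
    (fun s hs => (h4 s (hsub hs)).1.differentiableAt (by norm_num))
    (fun s hs => by
      have h6 := (h4 s (hsub hs)).2
      rw [h1, sub_zero, sub_zero] at h6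
      exact h6.trans (mul_le_mul_of_nonneg_left (by simpa using hs) hC.le))
    (convex_closedBall _ _) (mem_closedBall_self (norm_nonneg _)) (by simp)
  rw [h0, sub_zero, sub_zero, mul_assoc, ← sq, Real.norm_eq_abs, sq_abs] at h5
  exact h5

theorem av_smul (ρ : E N → ℝ) (z v : E N) (c : ℂ) : av ρ z (c • v) = c * av ρ z v := by
  simp only [av, PiLp.smul_apply, smul_eq_mul, Finset.mul_sum]
  exact Finset.sum_congr rfl fun j _ => by ring

theorem av_sub (ρ : E N → ℝ) (z v w : E N) : av ρ z (v - w) = av ρ z v - av ρ z w := by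
  simp only [av, PiLp.sub_apply, mul_sub, Finset.sum_sub_distrib]

theorem av_neg (ρ : E N → ℝ) (z v : E N) : av ρ z (-v) = -av ρ z v := by
  simp only [av, PiLp.neg_apply, mul_neg, Finset.sum_neg_distrib]

theorem cv_neg (ρ : E N → ℝ) (p w : E N) : cv ρ p (-w) = cv ρ p w := by
  simp only [cv, PiLp.neg_apply, mul_neg, neg_mul, neg_neg]

theorem contDiffAt_av {ρ : E N → ℝ} {p : E N} (h : ContDiffAt ℝ ∞ (cx ρ) p) (v : E N) :
    ContDiffAt ℝ ∞ (fun z => av ρ z v) p :=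
  ContDiffAt.sum fun j _ => (contDiffAt_dz j h).mul contDiffAt_const

theorem fderiv_av {ρ : E N → ℝ} {p : E N} (h : ContDiffAt ℝ ∞ (cx ρ) p) {w : E N}
    (hw : av ρ p w = 0) {β : ℂ}
    (hβ : ∀ j, ∑ k, conj (w k) * dz j (dzb k (cx ρ)) p = β * dz j (cx ρ) p) :
    fderiv ℝ (fun z => av ρ z w) p w = ∑ j, ∑ l, dz j (dz l (cx ρ)) p * w j * w l := by
  have hd : ∀ j, DifferentiableAt ℝ (dz j (cx ρ)) p := fun j => ContDiffAt.da (contDiffAt_dz j h)
  have e1 : fderiv ℝ (fun z => av ρ z w) p w = ∑ j, fderiv ℝ (dz j (cx ρ)) p w * w j := by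
    simp only [av]
    rw [fderiv_fun_sum fun j _ => (hd j).mul_const _, ContinuousLinearMap.sum_apply]
    refine Finset.sum_congr rfl fun j _ => ?_
    rw [fderiv_mul_const (hd j), ContinuousLinearMap.smul_apply, smul_eq_mul, mul_comm]
  have e2 : ∀ j, fderiv ℝ (dz j (cx ρ)) p w * w j =
      ∑ l, dz l (dz j (cx ρ)) p * w l * w j + β * (dz j (cx ρ) p * w j) := by
    intro j
    rw [fderiv_eq, Finset.sum_add_distrib, add_mul, ← mul_assoc, ← hβ, Finset.sum_mul]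
    congr 1
    · exact Finset.sum_congr rfl fun l _ => by ring
    · congr 1
      exact Finset.sum_congr rfl fun l _ => by rw [dz_dzb_comm j l h]
  rw [e1]
  simp only [e2]
  rw [Finset.sum_add_distrib, ← Finset.mul_sum, Finset.sum_comm]
  rw [av] at hw
  rw [hw, mul_zero, add_zero]

theorem hasDerivAt_curve (p w c : E N) (t : ℝ) :
    HasDerivAt (fun s : ℝ => p + s • w + s ^ 2 • c) (w + (2 * t) • c) t := by
  have h1 := ((hasDerivAt_id t).smul_const w).const_add p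
  have h2 := (hasDerivAt_pow 2 t).smul_const c
  refine (h1.fun_add h2).congr_deriv ?_
  simp

theorem tan_right (L : Lv0) (h : StmtGR) {ρ : E N → ℝ} {K : Set (E N)} (hρ : Dom ρ) (hK : KS ρ K)
    (hP : PN ρ K) {p : E N} (hp : p ∈ K) {w : E N} (hw : av ρ p w = 0) :
    (fun t : ℝ => infDist (p + t • w + t ^ 2 • cv ρ p w) K) =o[𝓝[≥] 0] fun t => t ^ 2 := by
  have hp0 : p ≠ 0 := fun e => hK.cone.1 (e ▸ hp)
  obtain ⟨-, -, f1, f2, -, -, f3⟩ := (L.pf N).2.2.2 ρ hρ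
  obtain ⟨hreg, -, f4⟩ := f3 p hp0 (hK.bd p hp)
  obtain ⟨β, hβ⟩ := f4 (hK.null p hp) w hw
  have han : 0 < an ρ p := (f2 p hreg).1
  have hu : av ρ p (nv ρ p) = an ρ p := (f1 p hp0).2.2.2.2.1
  have hu0 : av ρ p (nv ρ p) ≠ 0 := by
    rw [hu]
    exact ofReal_ne_zero.2 han.ne'
  have hs : ContDiffAt ℝ ∞ (cx ρ) p :=
    contDiffAt_cx (hρ.smooth.contDiffAt (isOpen_E0.mem_nhds hp0))
  have ha := contDiffAt_av hs w
  have hb := contDiffAt_av hs (nv ρ p)
  have hq : ContDiffAt ℝ ∞ (fun z => av ρ z w / av ρ z (nv ρ p)) p := by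
    simp only [div_eq_mul_inv]
    exact ha.mul (hb.inv hu0)
  have hX : ContDiffAt ℝ ∞ (Xf ρ (nv ρ p) w) p := contDiffAt_const.sub (hq.smul contDiffAt_const)
  let γ : ℝ → E N := fun t => p + t • w + t ^ 2 • cv ρ p w
  have hγ : ∀ t, HasDerivAt γ (w + (2 * t) • cv ρ p w) t := hasDerivAt_curve p w _
  have γ0 : γ 0 = p := by simp [γ]
  have hγs : ContDiff ℝ ∞ γ := by fun_prop
  have hγ0 : HasDerivAt γ w 0 := by simpa using hγ 0
  let g : ℝ → E N := fun t => w + (2 * t) • cv ρ p w - Xf ρ (nv ρ p) w (γ t)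
  have hg : ContDiffAt ℝ ∞ g 0 :=
    (by fun_prop : ContDiffAt ℝ ∞ (fun t : ℝ => w + (2 * t) • cv ρ p w) 0).sub
      (ContDiffAt.comp (g := Xf ρ (nv ρ p) w) (f := γ) 0 (by rw [γ0]; exact hX) hγs.contDiffAt)
  have g0 : g 0 = 0 := by simp [g, γ0, Xf, hw]
  have g1 : deriv g 0 = 0 := by
    have d1 := (ContDiffAt.da ha).hasFDerivAt.comp_hasDerivAt_of_eq 0 hγ0 γ0.symm
    have d2 := (ContDiffAt.da hb).hasFDerivAt.comp_hasDerivAt_of_eq 0 hγ0 γ0.symm
    have d3 := (d1.div d2 (by simpa [γ0] using hu0)).smul_const (nv ρ p)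
    have d4 := ((((hasDerivAt_id (0 : ℝ)).const_mul 2).smul_const (cv ρ p w)).const_add w).sub
      (d3.const_sub w)
    refine (HasDerivAt.deriv d4).trans ?_
    simp only [Function.comp_apply, γ0, hw, fderiv_av hs hw hβ, hu, cv, zero_mul, sub_zero,
      mul_one, sub_neg_eq_add]
    rw [← Complex.coe_smul, smul_smul, ← add_smul]
    have h0 : (an ρ p : ℂ) ≠ 0 := ofReal_ne_zero.2 han.ne'
    have e : ∀ S : ℂ, ((2 : ℝ) : ℂ) * (-S / ((2 * an ρ p : ℝ) : ℂ)) +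
        S * (an ρ p : ℂ) / (an ρ p : ℂ) ^ 2 = 0 := by
      intro S
      push_cast
      field_simp
      ring
    rw [e, zero_smul]
  obtain ⟨C, hC, hgC⟩ := quad_bound hg g0 g1
  obtain ⟨Lp, U, hU, hLp⟩ := (hX.of_le (WithTop.coe_le_coe.2 le_top) :
    ContDiffAt ℝ 1 _ p).exists_lipschitzOnWith
  obtain ⟨ε, hε, hball⟩ := Metric.eventually_nhds_iff_ball.1
    ((show ∀ᶠ z in 𝓝 p, z ∈ U from hU).and (hb.continuousAt.eventually_ne hu0))
  have hp1 : 0 < ‖p‖ := norm_pos_iff.2 hp0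
  set r := min (ε / 4) (‖p‖ / 4) with hr
  have hr0 : 0 < r := lt_min (by linarith) (by linarith)
  have hr1 : r ≤ ε / 4 := min_le_left _ _
  have hr2 : r ≤ ‖p‖ / 4 := min_le_right _ _
  have hsub : closedBall p (2 * r) ⊆ ball p ε := closedBall_subset_ball (by linarith)
  have hin : ∀ᶠ t in 𝓝 (0 : ℝ), γ t ∈ closedBall p r :=
    hγs.continuous.continuousAt.eventually_mem (γ0 ▸ closedBall_mem_nhds p hr0)
  obtain ⟨δ, hδ, hδ2⟩ := Metric.eventually_nhds_iff_ball.1 (hgC.and hin)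
  refine IsLittleO.of_bound fun η hη => ?_
  have hlim : ∀ᶠ T in 𝓝 (0 : ℝ), C ^ 2 * T * Real.exp ((2 * Lp + 1) * T) < η ^ 2 := by
    have hc : Continuous fun T : ℝ => C ^ 2 * T * Real.exp ((2 * Lp + 1) * T) := by fun_prop
    exact hc.continuousAt.eventually_lt continuousAt_const (by simpa using pow_pos hη 2)
  filter_upwards [self_mem_nhdsWithin, nhdsWithin_le_nhds hlim,
    nhdsWithin_le_nhds (ball_mem_nhds (0 : ℝ) hδ)] with T hT hT1 hT2
  have hT0 : 0 ≤ T := hT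
  have hT3 : T < δ := by
    rw [mem_ball, dist_zero_right, Real.norm_eq_abs] at hT2
    exact (abs_lt.1 hT2).2
  have key := (h N ρ K hK hP p hp r T (C * T ^ 2) Lp (Xf ρ (nv ρ p) w) γ
    (fun t => w + (2 * t) • cv ρ p w) hr0 (by linarith)
    (hLp.mono fun z hz => (hball z (hsub hz)).1)
    (fun z hz => by
      rw [Xf, av_sub, av_smul, div_mul_cancel₀ _ (hball z (hsub hz.2)).2, sub_self])
    (γ0 ▸ hp) (fun t ht => by
      have h1 := hδ2 t (by
        rw [mem_ball, dist_zero_right, Real.norm_eq_abs, abs_of_nonneg ht.1]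
        linarith [ht.2])
      exact ⟨hγ t, h1.2, h1.1.trans (mul_le_mul_of_nonneg_left
        (pow_le_pow_left₀ ht.1 ht.2 2) hC)⟩) T ⟨hT0, le_rfl⟩).1
  rw [Real.norm_of_nonneg infDist_nonneg, Real.norm_of_nonneg (sq_nonneg T)]
  refine (pow_le_pow_iff_left₀ infDist_nonneg (by positivity) two_ne_zero).1 (key.trans ?_)
  have h4 : 0 ≤ (T ^ 2) ^ 2 := sq_nonneg _
  calc _ = C ^ 2 * T * Real.exp ((2 * Lp + 1) * T) * (T ^ 2) ^ 2 := by ring
    _ ≤ η ^ 2 * (T ^ 2) ^ 2 := mul_le_mul_of_nonneg_right hT1.le h4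
    _ = _ := by ring

theorem tan_deriv {ρ : E N → ℝ} {K : Set (E N)} (hT : Tan ρ K) {p : E N} (hp : p ∈ K)
    {F : E N → ℂ} (hF : DifferentiableAt ℝ F p) (h0 : ∀ᶠ z in 𝓝 p, z ∈ K → F z = 0) {w : E N}
    (hw : av ρ p w = 0) : fderiv ℝ F p w = 0 := by
  have h1 := hT p hp w hw
  have key : ∀ t : ℝ, ∃ y ∈ K, (t = 0 → y = p) ∧ ‖y - (p + t • w + t ^ 2 • cv ρ p w)‖ ≤
      infDist (p + t • w + t ^ 2 • cv ρ p w) K + t ^ 2 := by
    intro t
    by_cases ht : t = 0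
    · subst ht
      exact ⟨p, hp, fun _ => rfl, by simpa using infDist_nonneg⟩
    · obtain ⟨y, hy, h2⟩ := (infDist_lt_iff ⟨p, hp⟩).1
        (lt_add_of_pos_right (infDist (p + t • w + t ^ 2 • cv ρ p w) K) (sq_pos_of_ne_zero ht))
      exact ⟨y, hy, fun h => absurd h ht, by rw [← dist_eq_norm, dist_comm]; exact h2.le⟩
  choose k k1 k2 k3 using key
  have k0 : k 0 = p := k2 0 rfl
  have hsq : (fun t : ℝ => t ^ 2) =o[𝓝 0] fun t => t := isLittleO_pow_id one_lt_two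
  have hk : HasDerivAt k w 0 := by
    rw [hasDerivAt_iff_isLittleO]
    have a1 : (fun t : ℝ => k t - (p + t • w + t ^ 2 • cv ρ p w)) =O[𝓝 0] fun t => t ^ 2 := by
      refine IsBigO.trans (IsBigO.of_bound' (Eventually.of_forall fun t => ?_))
        (h1.isBigO.add (isBigO_refl _ _))
      exact (k3 t).trans (le_abs_self _)
    have a2 : (fun t : ℝ => t ^ 2 • cv ρ p w) =O[𝓝 0] fun t => t ^ 2 :=
      IsBigO.of_bound ‖cv ρ p w‖ (Eventually.of_forall fun t => by rw [norm_smul, mul_comm])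
    refine ((a1.add a2).trans_isLittleO hsq).congr (fun t => ?_) fun t => (sub_zero t).symm
    rw [k0, sub_zero]
    abel
  have d1 := hF.hasFDerivAt.comp_hasDerivAt_of_eq 0 hk k0.symm
  have d2 : HasDerivAt (F ∘ k) 0 0 := by
    refine (hasDerivAt_const (0 : ℝ) (0 : ℂ)).congr_of_eventuallyEq ?_
    have h2 : Tendsto k (𝓝 0) (𝓝 p) := k0 ▸ hk.continuousAt
    exact (h2.eventually h0).mono fun t ht => ht (k1 t)
  exact d1.unique d2

theorem d2 (L : Lv0) (h : StmtGR) : StmtD2 := by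
  intro N ρ K hρ hK
  refine ⟨fun hP p hp w hw => ?_, fun hT p hp F hF h0 w hw => ?_⟩
  · rw [← nhdsLE_sup_nhdsGE]
    refine IsLittleO.sup ?_ (tan_right L h hρ hK hP hp hw)
    have h1 := tan_right L h hρ hK hP hp (w := -w) (by rw [av_neg, hw, neg_zero])
    have h2 : Tendsto (fun t : ℝ => -t) (𝓝[≤] 0) (𝓝[≥] 0) := by
      simpa using tendsto_neg_nhdsLE (a := (0 : ℝ))
    refine (h1.comp_tendsto h2).congr (fun t => ?_) fun t => ?_
    · simp [cv_neg]
    · simp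
  · have h1 := tan_deriv hT hp hF h0 hw
    have h2 := tan_deriv hT hp hF h0 (w := I • w) (by rw [av_smul, hw, mul_zero])
    have h3 := h1
    rw [fderiv_eq, Finset.sum_add_distrib] at h2 h3
    have e1 : ∑ j, (I • w) j * dz j F p = I * ∑ j, w j * dz j F p := by
      simp only [PiLp.smul_apply, smul_eq_mul, Finset.mul_sum, mul_assoc]
    have e2 : ∑ j, conj ((I • w) j) * dzb j F p = -I * ∑ j, conj (w j) * dzb j F p := by
      simp only [PiLp.smul_apply, smul_eq_mul, Finset.mul_sum, mul_assoc, map_mul, conj_I]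
    rw [e1, e2] at h2
    refine ⟨h1, ?_, ?_⟩
    · linear_combination h3 / 2 - I * h2 / 2 +
        (∑ j, w j * dz j F p - ∑ j, conj (w j) * dzb j F p) / 2 * I_mul_I
    · linear_combination h3 / 2 + I * h2 / 2 -
        (∑ j, w j * dz j F p - ∑ j, conj (w j) * dzb j F p) / 2 * I_mul_I

end

end Pool.Agent.MP_fcd29e_an.H96
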