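import Pool.Agent.MP_fcd29e_an.H81.Spec

/-! The commutator identity for one field (row E2). -/

set_option autoImplicit false

namespace Pool.Agent.MP_fcd29e_an.H96

open Pool.Agent.MP_fcd29e_an.H81 MeasureTheory Complex Set Filter Topology Metric
open scoped ContDiff ComplexConjugate ENNReal NNReal

noncomputable section

variable {N : ℕ} {l : Fin N → E N → ℂ} {g h : E N → ℂ} {z : E N}

theorem Lf_mul (hg : DifferentiableAt ℝ g z) (hh : DifferentiableAt ℝ h z) :
    Lf l (fun y => g y * h y) z = Lf l g z * h z + g z * Lf l h z := by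
  simp only [Lf, dz_mul _ hg hh, Finset.sum_mul, Finset.mul_sum, ← Finset.sum_add_distrib]
  exact Finset.sum_congr rfl fun j _ => by ring

theorem Lb_mul (hg : DifferentiableAt ℝ g z) (hh : DifferentiableAt ℝ h z) :
    Lb l (fun y => g y * h y) z = Lb l g z * h z + g z * Lb l h z := by
  simp only [Lb, dzb_mul _ hg hh, Finset.sum_mul, Finset.mul_sum, ← Finset.sum_add_distrib]
  exact Finset.sum_congr rfl fun j _ => by ring

theorem Lb_add (hg : DifferentiableAt ℝ g z) (hh : DifferentiableAt ℝ h z) :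
    Lb l (fun y => g y + h y) z = Lb l g z + Lb l h z := by
  simp only [Lb, dzb_add _ hg hh, mul_add, Finset.sum_add_distrib]

theorem Lf_conj : Lf l (fun y => conj (g y)) z = conj (Lb l g z) := by
  simp only [Lf, Lb, dz_conj, map_sum, map_mul, conj_conj]

theorem Lb_conj : Lb l (fun y => conj (g y)) z = conj (Lf l g z) := by
  simp only [Lf, Lb, dzb_conj, map_sum, map_mul]

theorem Lb_cx (W : E N → ℝ) : Lb l (cx W) z = conj (Lf l (cx W) z) := by
  simp only [Lf, Lb, dzb_cx, map_sum, map_mul]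

theorem div_f (hl : ∀ j, DifferentiableAt ℝ (l j) z) (hg : DifferentiableAt ℝ g z)
    (hh : DifferentiableAt ℝ h z) :
    ∑ j, dz j (fun y => g y * (l j y * h y)) z =
      Lf l g z * h z + g z * dv l z * h z + g z * Lf l h z := by
  simp only [Lf, dv, Finset.sum_mul, Finset.mul_sum, ← Finset.sum_add_distrib]
  refine Finset.sum_congr rfl fun j _ => ?_
  rw [dz_mul _ hg ((hl j).fun_mul hh), dz_mul _ (hl j) hh]
  ring

theorem div_b (hl : ∀ j, DifferentiableAt ℝ (l j) z) (hg : DifferentiableAt ℝ g z)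
    (hh : DifferentiableAt ℝ h z) :
    ∑ j, dzb j (fun y => g y * (conj (l j y) * h y)) z =
      Lb l g z * h z + g z * conj (dv l z) * h z + g z * Lb l h z := by
  simp only [Lb, dv, map_sum, Finset.sum_mul, Finset.mul_sum, ← Finset.sum_add_distrib]
  refine Finset.sum_congr rfl fun j _ => ?_
  rw [dzb_mul _ hg ((differentiableAt_conj (hl j)).fun_mul hh),
    dzb_mul _ (differentiableAt_conj (hl j)) hh, dzb_conj]
  ring

theorem contDiffAt_Lf (hl : ∀ j, ContDiffAt ℝ ∞ (l j) z) (hg : ContDiffAt ℝ ∞ g z) :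
    ContDiffAt ℝ ∞ (Lf l g) z :=
  ContDiffAt.sum fun j _ => (hl j).mul (contDiffAt_dz j hg)

theorem contDiffAt_Lb (hl : ∀ j, ContDiffAt ℝ ∞ (l j) z) (hg : ContDiffAt ℝ ∞ g z) :
    ContDiffAt ℝ ∞ (Lb l g) z :=
  ContDiffAt.sum fun j _ => (contDiffAt_conj (hl j)).mul (contDiffAt_dzb j hg)

theorem Lb_Lf (hl : ∀ j, ContDiffAt ℝ ∞ (l j) z) (hg : ContDiffAt ℝ ∞ g z) :
    Lb l (Lf l g) z = ∑ j, Lb l (l j) z * dz j g z +
      ∑ j, ∑ k, l j z * conj (l k z) * dz j (dzb k g) z := by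
  have e : ∀ k, dzb k (Lf l g) z =
      ∑ j, (dzb k (l j) z * dz j g z + l j z * dz j (dzb k g) z) := by
    intro k
    have h1 := dzb_sum (z := z) k Finset.univ (F := fun j y => l j y * dz j g y) fun j _ =>
      (ContDiffAt.da (hl j)).fun_mul (ContDiffAt.da (contDiffAt_dz j hg))
    refine h1.trans (Finset.sum_congr rfl fun j _ => ?_)
    rw [dzb_mul _ (ContDiffAt.da (hl j)) (ContDiffAt.da (contDiffAt_dz j hg)), dz_dzb_comm j k hg]
  simp only [Lb, e, Finset.sum_mul, Finset.mul_sum, ← Finset.sum_add_distrib]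
  rw [Finset.sum_comm]
  exact Finset.sum_congr rfl fun j _ => Finset.sum_congr rfl fun k _ => by ring

theorem Lf_Lb (hl : ∀ j, ContDiffAt ℝ ∞ (l j) z) (hg : ContDiffAt ℝ ∞ g z) :
    Lf l (Lb l g) z = ∑ k, conj (Lb l (l k) z) * dzb k g z +
      ∑ j, ∑ k, l j z * conj (l k z) * dz j (dzb k g) z := by
  have e : ∀ j, dz j (Lb l g) z =
      ∑ k, (conj (dzb j (l k) z) * dzb k g z + conj (l k z) * dz j (dzb k g) z) := by
    intro j
    have h1 := dz_sum (z := z) j Finset.univ (F := fun k y => conj (l k y) * dzb k g y) fun k _ =>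
      (differentiableAt_conj (ContDiffAt.da (hl k))).fun_mul (ContDiffAt.da (contDiffAt_dzb k hg))
    refine h1.trans (Finset.sum_congr rfl fun k _ => ?_)
    rw [dz_mul _ (differentiableAt_conj (ContDiffAt.da (hl k)))
      (ContDiffAt.da (contDiffAt_dzb k hg)), dz_conj]
  have e2 : ∑ k, conj (Lb l (l k) z) * dzb k g z =
      ∑ j, ∑ k, l j z * conj (dzb j (l k) z) * dzb k g z := by
    simp only [Lb, map_sum, map_mul, conj_conj, Finset.sum_mul]
    exact Finset.sum_comm
  rw [e2]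
  simp only [Lf, e, Finset.mul_sum, ← Finset.sum_add_distrib]
  exact Finset.sum_congr rfl fun j _ => Finset.sum_congr rfl fun k _ => by ring

theorem ofReal_normSq (a : ℂ) : ((‖a‖ ^ 2 : ℝ) : ℂ) = conj a * a := by
  rw [mul_comm, Complex.mul_conj, Complex.normSq_eq_norm_sq]

theorem e2 : StmtE2 := by
  intro N l σ w W z hl hw hσ hW hL
  have hl' : ∀ j, DifferentiableAt ℝ (l j) z := fun j => ContDiffAt.da (hl j)
  have hw' := ContDiffAt.da hw
  have hwc := differentiableAt_conj hw'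
  have hW' : DifferentiableAt ℝ (cx W) z := ofRealCLM.differentiableAt.comp z hW
  have hb := ContDiffAt.da (contDiffAt_Lb hl hw)
  have hf := ContDiffAt.da (contDiffAt_Lf hl hw)
  have hD := hf.fun_add (hσ.fun_mul hw')
  have h1 := div_f hl' hW' (hwc.fun_mul hb)
  have h2 := div_b hl' hW' (hwc.fun_mul hD)
  rw [Lf_mul hwc hb, Lf_conj, Lf_Lb hl hw, hL] at h1
  rw [Lb_mul hwc hD, Lb_conj, Lb_add hf (hσ.fun_mul hw'), Lb_mul hσ hw', Lb_Lf hl hw, Lb_cx,
    hL] at h2
  simp only [cx] at h1 h2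
  rw [h1, h2, ofReal_normSq, ofReal_normSq]
  simp only [map_add, map_mul, map_sub, conj_ofReal]
  ring

end

end Pool.Agent.MP_fcd29e_an.H96
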