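import Pool.Agent.MP_fcd29e_an.H81.Spec2

/-! Flat homogeneous functions are small near `K` (row FLB). -/

set_option autoImplicit false

namespace Pool.Agent.MP_fcd29e_an.H96

open Pool.Agent.MP_fcd29e_an.H81 MeasureTheory Complex Set Filter Topology Metric
open scoped ContDiff ComplexConjugate ENNReal NNReal Pointwise

noncomputable section

variable {N : ℕ}

/-- Vanishing to order `n` along `K`, uniformly on compact sets. -/
def PB (K : Set (E N)) (n : ℕ) (F : E N → ℂ) : Prop :=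
  ∀ S : Set (E N), IsCompact S → S ⊆ E0 N → ∃ C : ℝ, 0 ≤ C ∧ ∀ z ∈ S, ‖F z‖ ≤ C * infDist z K ^ n

theorem smooth_dz {F : E N → ℂ} (hF : ContDiffOn ℝ ∞ F (E0 N)) (j : Fin N) :
    ContDiffOn ℝ ∞ (dz j F) (E0 N) := fun _ hz =>
  (contDiffAt_dz j (hF.contDiffAt (isOpen_E0.mem_nhds hz))).contDiffWithinAt

theorem smooth_dzb {F : E N → ℂ} (hF : ContDiffOn ℝ ∞ F (E0 N)) (j : Fin N) :
    ContDiffOn ℝ ∞ (dzb j F) (E0 N) := fun _ hz =>
  (contDiffAt_dzb j (hF.contDiffAt (isOpen_E0.mem_nhds hz))).contDiffWithinAt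

theorem norm_fderiv_le (F : E N → ℂ) (z : E N) :
    ‖fderiv ℝ F z‖ ≤ ∑ j, (‖dz j F z‖ + ‖dzb j F z‖) := by
  refine ContinuousLinearMap.opNorm_le_bound _ (Finset.sum_nonneg fun j _ => by positivity)
    fun v => ?_
  rw [fderiv_eq, Finset.sum_mul]
  refine (norm_sum_le _ _).trans (Finset.sum_le_sum fun j _ => (norm_add_le _ _).trans ?_)
  rw [norm_mul, norm_mul, norm_conj, ← mul_add, mul_comm]
  exact mul_le_mul_of_nonneg_left (PiLp.norm_apply_le v j) (by positivity)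

theorem PB_zero (K : Set (E N)) {F : E N → ℂ} (hF : ContDiffOn ℝ ∞ F (E0 N)) : PB K 0 F := by
  intro S hS hS0
  obtain ⟨C, hC⟩ := hS.exists_bound_of_continuousOn (hF.continuousOn.mono hS0)
  exact ⟨max C 0, le_max_right _ _, fun z hz => by
    rw [pow_zero, mul_one]
    exact (hC z hz).trans (le_max_left _ _)⟩

theorem PB_step {ρ : E N → ℝ} {K : Set (E N)} (hK : KS ρ K) {n : ℕ} {F : E N → ℂ}
    (hF : ContDiffOn ℝ ∞ F (E0 N)) (h0 : ∀ z ∈ K, F z = 0)
    (h : ∀ j, PB K n (dz j F) ∧ PB K n (dzb j F)) : PB K (n + 1) F := by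
  intro S hS hS0
  obtain ⟨δ, hδ, hδ2⟩ := hS.exists_cthickening_subset_open isOpen_E0 hS0
  choose C1 a1 a2 using fun j => (h j).1 _ hS.cthickening hδ2
  choose C2 b1 b2 using fun j => (h j).2 _ hS.cthickening hδ2
  obtain ⟨M, hM, hM2⟩ := PB_zero K hF S hS hS0
  have hC : 0 ≤ ∑ j, (C1 j + C2 j) := Finset.sum_nonneg fun j _ => add_nonneg (a1 j) (b1 j)
  set C := ∑ j, (C1 j + C2 j) with hCdef
  have hD : ∀ y ∈ cthickening δ S, ‖fderiv ℝ F y‖ ≤ C * infDist y K ^ n := fun y hy => by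
    refine (norm_fderiv_le F y).trans ?_
    rw [hCdef, Finset.sum_mul]
    exact Finset.sum_le_sum fun j _ => by
      rw [add_mul]
      exact add_le_add (a2 j y hy) (b2 j y hy)
  refine ⟨C * 3 ^ n * 2 + M / (δ / 2) ^ (n + 1), by positivity, fun z hz => ?_⟩
  have hd : 0 ≤ infDist z K := infDist_nonneg
  set d := infDist z K with hdd
  rw [add_mul]
  by_cases h1 : δ / 2 ≤ d
  · have h2 := hM2 z hz
    rw [pow_zero, mul_one] at h2
    refine le_add_of_nonneg_of_le (by positivity) (h2.trans ?_)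
    rw [div_mul_eq_mul_div, le_div_iff₀ (by positivity)]
    exact mul_le_mul_of_nonneg_left (pow_le_pow_left₀ (by positivity) h1 _) hM
  · refine le_add_of_le_of_nonneg ?_ (by positivity)
    rcases hd.eq_or_lt with h2 | h2
    · have h3 : z ∈ closure K := (mem_closure_iff_infDist_zero hK.ne).2 h2.symm
      rcases closure_minimal (subset_insert 0 K) hK.closed h3 with h4 | h4
      · exact absurd h4 (hS0 hz)
      · rw [h0 z h4, norm_zero]
        positivity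
    · obtain ⟨p, hp, h3⟩ := (infDist_lt_iff hK.ne).1 (show infDist z K < 2 * d by linarith)
      have hsub : closedBall z (2 * d) ⊆ cthickening δ S :=
        (closedBall_subset_closedBall (by linarith)).trans (closedBall_subset_cthickening hz δ)
      have h4 := Convex.norm_image_sub_le_of_norm_fderiv_le (𝕜 := ℝ) (f := F) (C := C * (3 * d) ^ n)
        (s := closedBall z (2 * d)) (x := p) (y := z)
        (fun y hy => ContDiffAt.da (hF.contDiffAt (isOpen_E0.mem_nhds (hδ2 (hsub hy)))))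
        (fun y hy => (hD y (hsub hy)).trans (mul_le_mul_of_nonneg_left
          (pow_le_pow_left₀ infDist_nonneg (by
            have h5 : infDist y K ≤ infDist z K + dist y z := infDist_le_infDist_add_dist
            have h6 : dist y z ≤ 2 * d := hy
            linarith) _) hC))
        (convex_closedBall _ _) (mem_closedBall'.2 h3.le) (mem_closedBall_self (by positivity))
      rw [h0 p hp, sub_zero, ← dist_eq_norm] at h4
      calc _ ≤ C * (3 * d) ^ n * (2 * d) :=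
            h4.trans (mul_le_mul_of_nonneg_left h3.le (by positivity))
        _ = _ := by ring

theorem PB_of_Fl (hf : StmtFL) {ρ : E N → ℝ} {K : Set (E N)} (hK : KS ρ K) (T : ℕ) :
    ∀ F : E N → ℂ, ContDiffOn ℝ ∞ F (E0 N) → Fl K T F → PB K (T + 1) F := by
  have hsub : K ⊆ E0 N := fun z hz e => hK.cone.1 (mem_singleton_iff.1 e ▸ hz)
  induction T with
  | zero =>
    intro F hF h
    exact PB_step hK hF h fun j => ⟨PB_zero K (smooth_dz hF j), PB_zero K (smooth_dzb hF j)⟩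
  | succ T ih =>
    intro F hF h
    refine PB_step hK hF h.1 fun j => ?_
    have h1 := (hf N K (E0 N) isOpen_E0 hsub).2.2.2.1 T F j hF h
    exact ⟨ih _ (smooth_dz hF j) h1.1, ih _ (smooth_dzb hF j) h1.2⟩

theorem PB_all (hf : StmtFL) {ρ : E N → ℝ} {K : Set (E N)} (hK : KS ρ K) (T : ℕ) {F : E N → ℂ}
    (hF : ContDiffOn ℝ ∞ F (E0 N)) (h : Fl K T F) :
    PB K T F ∧ ∀ j, PB K T (dz j F) ∧ PB K T (dzb j F) := by
  have hsub : K ⊆ E0 N := fun z hz e => hK.cone.1 (mem_singleton_iff.1 e ▸ hz)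
  cases T with
  | zero => exact ⟨PB_zero K hF, fun j => ⟨PB_zero K (smooth_dz hF j), PB_zero K (smooth_dzb hF j)⟩⟩
  | succ T =>
    refine ⟨PB_of_Fl hf hK T F hF
      (((hf N K (E0 N) isOpen_E0 hsub).1 _ F h).1 T (Nat.le_succ T)), fun j => ?_⟩
    have h1 := (hf N K (E0 N) isOpen_E0 hsub).2.2.2.1 T F j hF h
    exact ⟨PB_of_Fl hf hK T _ (smooth_dz hF j) h1.1, PB_of_Fl hf hK T _ (smooth_dzb hF j) h1.2⟩

theorem hom_bound {ρ : E N → ℝ} {K : Set (E N)} (hK : KS ρ K) {n m : ℕ} {a b : ℤ} {g : E N → ℂ}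
    (hab : a + b = -m) (hg : Hom (E0 N) a b g) (h : PB K n g) :
    ∃ C : ℝ, 0 ≤ C ∧ ∀ z, z ≠ 0 → ‖g z‖ ≤ C * (infDist z K / ‖z‖) ^ n / ‖z‖ ^ m := by
  obtain ⟨C, hC, h1⟩ := h (sphere 0 1) (isCompact_sphere _ _) fun z hz e => by
    rw [mem_singleton_iff.1 e] at hz
    simp at hz
  refine ⟨C, hC, fun z hz => ?_⟩
  have hr : 0 < ‖z‖ := norm_pos_iff.2 hz
  have hc : (‖z‖ : ℂ) ≠ 0 := ofReal_ne_zero.2 hr.ne'
  have hn : ‖(‖z‖ : ℂ)⁻¹‖ = ‖z‖⁻¹ := by simp
  have hu : (‖z‖ : ℂ)⁻¹ • z ∈ sphere (0 : E N) 1 := by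
    rw [mem_sphere_zero_iff_norm, norm_smul, hn, inv_mul_cancel₀ hr.ne']
  have e := hg _ hc ((‖z‖ : ℂ)⁻¹ • z) (smul_ne_zero (inv_ne_zero hc) hz)
  rw [smul_inv_smul₀ hc, conj_ofReal, ← zpow_add₀ hc, hab, zpow_neg, zpow_natCast] at e
  have h2 : infDist ((‖z‖ : ℂ)⁻¹ • z) K ≤ infDist z K / ‖z‖ := by
    have h3 : (‖z‖ : ℂ)⁻¹ • K ⊆ K := by
      rintro _ ⟨y, hy, rfl⟩
      exact hK.cone.2 _ (inv_ne_zero hc) y hy
    refine (infDist_le_infDist_of_subset h3 hK.ne.smul_set).trans ?_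
    rw [infDist_smul₀ (inv_ne_zero hc), hn, div_eq_inv_mul]
  rw [e, norm_mul, norm_inv, norm_pow, norm_real, norm_norm, ← div_eq_inv_mul]
  refine div_le_div_of_nonneg_right ((h1 _ hu).trans ?_) (by positivity)
  exact mul_le_mul_of_nonneg_left (pow_le_pow_left₀ infDist_nonneg h2 _) hC

theorem flb (L : Lv0) (hf : StmtFL) : StmtFLB := by
  intro N ρ K T α hK hα
  have pf := fun a b g => (L.pf N).1 (E0 N) a b g isOpen_E0 cone_E0
  have key : ∀ j k, ∃ C : ℝ, 0 ≤ C ∧ ∀ z, z ≠ 0 →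
      ‖d1 α j k z‖ ≤ C * (infDist z K / ‖z‖) ^ T / ‖z‖ ^ 2 ∧
      ‖fderiv ℝ (d1 α j k) z‖ ≤ C * (infDist z K / ‖z‖) ^ T / ‖z‖ ^ 3 := by
    intro j k
    have hs : ContDiffOn ℝ ∞ (d1 α j k) (E0 N) :=
      (smooth_dzb (hα.smooth k) j).sub (smooth_dzb (hα.smooth j) k)
    have hh : Hom (E0 N) 0 (-1 - 1) (d1 α j k) := fun c hc z hz => by
      rw [d1, d1, ((pf _ _ _ (hα.hom k)).1 j).2 c hc z hz, ((pf _ _ _ (hα.hom j)).1 k).2 c hc z hz]
      ring
    obtain ⟨p0, p1⟩ := PB_all hf hK T hs (hα.flat j k)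
    obtain ⟨C0, c0, c1⟩ := hom_bound hK (m := 2) (by norm_num) hh p0
    choose C1 a1 a2 using fun l =>
      hom_bound hK (m := 3) (by norm_num) ((pf _ _ _ hh).1 l).1 (p1 l).1
    choose C2 b1 b2 using fun l =>
      hom_bound hK (m := 3) (by norm_num) ((pf _ _ _ hh).1 l).2 (p1 l).2
    have hC : 0 ≤ ∑ l, (C1 l + C2 l) := Finset.sum_nonneg fun l _ => add_nonneg (a1 l) (b1 l)
    refine ⟨C0 + ∑ l, (C1 l + C2 l), add_nonneg c0 hC, fun z hz => ?_⟩
    have hd : 0 ≤ infDist z K := infDist_nonneg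
    refine ⟨(c1 z hz).trans ?_, (norm_fderiv_le _ z).trans ?_⟩
    · gcongr
      exact le_add_of_nonneg_right hC
    · rw [add_mul, add_div, Finset.sum_mul, Finset.sum_div]
      refine le_add_of_nonneg_of_le (by positivity) (Finset.sum_le_sum fun l _ => ?_)
      rw [add_mul, add_div]
      exact add_le_add (a2 l z hz) (b2 l z hz)
  choose C c1 c2 using key
  have hle : ∀ j k, C j k ≤ ∑ j, ∑ k, C j k := fun j k =>
    (Finset.single_le_sum (fun k _ => c1 j k) (Finset.mem_univ k)).trans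
      (Finset.single_le_sum (f := fun j => ∑ k, C j k)
        (fun j _ => Finset.sum_nonneg fun k _ => c1 j k) (Finset.mem_univ j))
  refine ⟨∑ j, ∑ k, C j k, Finset.sum_nonneg fun j _ => Finset.sum_nonneg fun k _ => c1 j k,
    fun j k z hz => ?_⟩
  have hd : 0 ≤ infDist z K := infDist_nonneg
  have h1 := hle j k
  exact ⟨(c2 j k z hz).1.trans (by gcongr), (c2 j k z hz).2.trans (by gcongr)⟩

end

end Pool.Agent.MP_fcd29e_an.H96
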