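import Pool.Agent.MP_fcd29e_an.H81.Spec2

/-! Logarithmic integrals (row LOG). -/

set_option autoImplicit false

namespace Pool.Agent.MP_fcd29e_an.H96

open Pool.Agent.MP_fcd29e_an.H81 MeasureTheory Complex Set Filter Topology Metric
open scoped ContDiff ComplexConjugate ENNReal NNReal

noncomputable section

section Ann
variable {V : Type} [NormedAddCommGroup V] [NormedSpace ℝ V] [FiniteDimensional ℝ V]

theorem ann_compact (a b : ℝ) : IsCompact {z : V | a ≤ ‖z‖ ∧ ‖z‖ ≤ b} :=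
  (isCompact_closedBall (0 : V) b).of_isClosed_subset
    ((isClosed_le continuous_const continuous_norm).inter
      (isClosed_le continuous_norm continuous_const))
    fun _ hz => mem_closedBall_zero_iff.2 hz.2

theorem ann_compact_sq (a b : ℝ) : IsCompact {z : V | a ≤ ‖z‖ ^ 2 ∧ ‖z‖ ^ 2 ≤ b} :=
  (isCompact_closedBall (0 : V) √b).of_isClosed_subset
    ((isClosed_le continuous_const (continuous_norm.pow 2)).inter
      (isClosed_le (continuous_norm.pow 2) continuous_const))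
    fun _ hz => mem_closedBall_zero_iff.2 (Real.le_sqrt_of_sq_le hz.2)

variable [MeasurableSpace V] [BorelSpace V] [Nontrivial V] (μ : Measure V) [μ.IsAddHaarMeasure]

theorem ann_int {n : ℕ} (hn : Module.finrank ℝ V = n) {a b : ℝ} (ha : 0 < a) (hab : a ≤ b) :
    ∫ z in {z : V | a ≤ ‖z‖ ∧ ‖z‖ ≤ b}, (‖z‖ ^ n)⁻¹ ∂μ =
      n * μ.real (ball 0 1) * Real.log (b / a) := by
  have hpos : 0 < n := hn ▸ Module.finrank_pos
  have h := integral_fun_norm_addHaar μ ((Icc a b).indicator fun s : ℝ => (s ^ n)⁻¹)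
  have e1 : ∫ z in {z : V | a ≤ ‖z‖ ∧ ‖z‖ ≤ b}, (‖z‖ ^ n)⁻¹ ∂μ =
      ∫ z, ((Icc a b).indicator fun s : ℝ => (s ^ n)⁻¹) ‖z‖ ∂μ := by
    rw [← integral_indicator (ann_compact a b).measurableSet]
    rfl
  have e2 : ∫ y in Ioi (0 : ℝ), y ^ (n - 1) • ((Icc a b).indicator fun s : ℝ => (s ^ n)⁻¹) y =
      Real.log (b / a) := by
    have e3 : (fun y : ℝ => y ^ (n - 1) • ((Icc a b).indicator fun s : ℝ => (s ^ n)⁻¹) y) =
        (Icc a b).indicator fun y => y⁻¹ := by
      funext y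
      by_cases hy : y ∈ Icc a b
      · rw [indicator_of_mem hy, indicator_of_mem hy, smul_eq_mul]
        have h0 : y ≠ 0 := (ha.trans_le hy.1).ne'
        obtain ⟨m, rfl⟩ := Nat.exists_eq_succ_of_ne_zero hpos.ne'
        simp only [Nat.succ_sub_one, pow_succ]
        field_simp
      · rw [indicator_of_notMem hy, indicator_of_notMem hy, smul_zero]
    rw [e3, setIntegral_indicator measurableSet_Icc,
      inter_eq_right.2 (show Icc a b ⊆ Ioi 0 from fun y hy => ha.trans_le hy.1),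
      integral_Icc_eq_integral_Ioc,
      ← intervalIntegral.integral_of_le hab, integral_inv_of_pos ha (ha.trans_le hab)]
  rw [e1, h, hn, e2, nsmul_eq_mul, smul_eq_mul, mul_assoc]

end Ann

theorem cut_smooth : ContDiff ℝ ∞ cut :=
  Real.smoothTransition.contDiff.comp (contDiff_id.sub contDiff_const)

theorem cut_zero {s : ℝ} (h : s ≤ 1) : cut s = 0 :=
  Real.smoothTransition.zero_of_nonpos (by linarith)

theorem cut_one {s : ℝ} (h : 2 ≤ s) : cut s = 1 :=
  Real.smoothTransition.one_of_one_le (by linarith)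

theorem cut_mono {s t : ℝ} (h : s ≤ t) : cut s ≤ cut t :=
  Real.smoothTransition.monotone (by linarith)

theorem cut_deriv {s : ℝ} (h : s < 1 ∨ 2 < s) : deriv cut s = 0 := by
  rcases h with h | h
  · have e : cut =ᶠ[𝓝 s] fun _ => 0 :=
      mem_of_superset (Iio_mem_nhds h) fun t ht => cut_zero (le_of_lt ht)
    rw [e.deriv_eq, deriv_const]
  · have e : cut =ᶠ[𝓝 s] fun _ => 1 :=
      mem_of_superset (Ioi_mem_nhds h) fun t ht => cut_one (le_of_lt ht)
    rw [e.deriv_eq, deriv_const]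

theorem cut_deriv_mem {s : ℝ} (h : deriv cut s ≠ 0) : s ∈ Icc (1 : ℝ) 2 :=
  ⟨not_lt.1 fun h' => h (cut_deriv (Or.inl h')), not_lt.1 fun h' => h (cut_deriv (Or.inr h'))⟩

theorem cut_deriv_bd : ∃ C : ℝ, 0 ≤ C ∧ ∀ s, |deriv cut s| ≤ C ∧ |deriv cut s * s| ≤ 2 * C := by
  obtain ⟨C, hC⟩ := (isCompact_Icc (a := (1 : ℝ)) (b := 2)).exists_bound_of_continuousOn
    (cut_smooth.continuous_deriv (WithTop.coe_le_coe.2 le_top)).continuousOn
  have h0 : 0 ≤ C := (norm_nonneg _).trans (hC 1 ⟨le_rfl, by norm_num⟩)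
  refine ⟨C, h0, fun s => ?_⟩
  by_cases h : deriv cut s = 0
  · simp [h, h0]
  · have h1 := cut_deriv_mem h
    have h2 : |deriv cut s| ≤ C := hC s h1
    refine ⟨h2, ?_⟩
    rw [abs_mul, abs_of_nonneg (by linarith [h1.1] : 0 ≤ s), mul_comm]
    exact mul_le_mul h1.2 h2 (abs_nonneg _) (by norm_num)

theorem thL_smooth (L : ℕ) : ContDiff ℝ ∞ (thL L) :=
  (cut_smooth.comp (contDiff_id.mul contDiff_const)).sub
    (cut_smooth.comp (contDiff_id.mul contDiff_const))

theorem thL_deriv (L : ℕ) (s : ℝ) : deriv (thL L) s =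
    deriv cut (s * Real.exp (2 * L)) * Real.exp (2 * L) -
      deriv cut (s * Real.exp (-(2 * L))) * Real.exp (-(2 * L)) := by
  have hd : ∀ c : ℝ, HasDerivAt (fun t => cut (t * c)) (deriv cut (s * c) * c) s := fun c =>
    HasDerivAt.comp (h₂ := cut) (h := fun t => t * c) s
      ((cut_smooth.differentiable (by simp)) (s * c)).hasDerivAt (hasDerivAt_mul_const c)
  exact ((hd _).sub (hd _)).deriv

theorem exp_facts (L : ℕ) : 0 < Real.exp (-(2 * (L : ℝ))) ∧ Real.exp (-(2 * (L : ℝ))) ≤ 1 ∧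
    1 ≤ Real.exp (2 * (L : ℝ)) ∧ Real.exp (-(2 * (L : ℝ))) * Real.exp (2 * L) = 1 := by
  have h : (0 : ℝ) ≤ 2 * L := by positivity
  refine ⟨Real.exp_pos _, Real.exp_le_one_iff.2 (by linarith), Real.one_le_exp h, ?_⟩
  rw [← Real.exp_add, neg_add_cancel, Real.exp_zero]

theorem thL_nonneg (L : ℕ) (s : ℝ) : 0 ≤ thL L s := by
  obtain ⟨h1, h2, h3, -⟩ := exp_facts L
  rcases le_total 0 s with h | h
  · exact sub_nonneg.2 (cut_mono (mul_le_mul_of_nonneg_left (h2.trans h3) h))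
  · rw [thL, cut_zero (s := s * Real.exp (-(2 * L))) (by nlinarith), sub_zero]
    exact Real.smoothTransition.nonneg _

theorem thL_supp (L : ℕ) {s : ℝ} (h : thL L s ≠ 0) :
    Real.exp (-(2 * L)) < s ∧ s < 2 * Real.exp (2 * L) := by
  obtain ⟨h1, h2, h3, h4⟩ := exp_facts L
  refine ⟨not_le.1 fun h' => h ?_, not_le.1 fun h' => h ?_⟩
  · rw [thL, cut_zero (by nlinarith), cut_zero (by nlinarith), sub_zero]
  · rw [thL, cut_one (by nlinarith), cut_one (by nlinarith), sub_self]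

theorem thL_one {L : ℕ} (hL : 1 ≤ L) {s : ℝ} (h1 : 1 ≤ s) (h2 : s ≤ Real.exp (2 * L)) :
    thL L s = 1 := by
  obtain ⟨a1, a2, a3, a4⟩ := exp_facts L
  have h3 := Real.add_one_le_exp (2 * (L : ℝ))
  have h4 : (1 : ℝ) ≤ L := by exact_mod_cast hL
  rw [thL, cut_one (by nlinarith), cut_zero (by nlinarith), sub_zero]

theorem thL_test (L N : ℕ) : Test (E0 N) fun z => (thL L (‖z‖ ^ 2) : ℂ) := by
  have hc := ann_compact_sq (V := E N) (Real.exp (-(2 * L))) (2 * Real.exp (2 * L))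
  have hs : Function.support (fun z : E N => (thL L (‖z‖ ^ 2) : ℂ)) ⊆
      {z | Real.exp (-(2 * L)) ≤ ‖z‖ ^ 2 ∧ ‖z‖ ^ 2 ≤ 2 * Real.exp (2 * L)} := fun z hz =>
    have h := thL_supp L (ofReal_ne_zero.1 hz)
    ⟨h.1.le, h.2.le⟩
  refine ⟨ofRealCLM.contDiff.comp ((thL_smooth L).comp (contDiff_norm_sq ℂ)),
    HasCompactSupport.of_support_subset_isCompact hc hs,
    (closure_minimal hs hc.isClosed).trans fun z hz e => ?_⟩
  have h := hz.1
  rw [mem_singleton_iff.1 e, norm_zero, zero_pow two_ne_zero] at h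
  exact absurd h (not_le.2 (Real.exp_pos _))

theorem thL_int {L : ℕ} (hL : 1 ≤ L) : (L : ℝ) ≤ ∫ c : ℂ, thL L (‖c‖ ^ 2) / ‖c‖ ^ 2 := by
  have hc := ann_compact_sq (V := ℂ) (Real.exp (-(2 * L))) (2 * Real.exp (2 * L))
  have hi : Integrable fun c : ℂ => thL L (‖c‖ ^ 2) / ‖c‖ ^ 2 := by
    refine IntegrableOn.integrable_of_forall_notMem_eq_zero
      (ContinuousOn.integrableOn_compact hc ?_) fun c h => ?_
    · exact ((thL_smooth L).continuous.comp (continuous_norm.pow 2)).continuousOn.div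
        (continuous_norm.pow 2).continuousOn fun c h => ((Real.exp_pos _).trans_le h.1).ne'
    · by_contra h2
      have h3 := thL_supp L (s := ‖c‖ ^ 2) fun e => h2 (by rw [e, zero_div])
      exact h ⟨h3.1.le, h3.2.le⟩
  have h1 := ann_int (V := ℂ) volume Complex.finrank_real_complex one_pos
    (Real.one_le_exp (Nat.cast_nonneg L))
  have h2 : (volume : Measure ℂ).real (ball 0 1) = Real.pi := by
    simp [Measure.real, Complex.volume_ball]
  rw [h2, div_one, Real.log_exp] at h1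
  have h3 : ∫ c in {z : ℂ | 1 ≤ ‖z‖ ∧ ‖z‖ ≤ Real.exp L}, thL L (‖c‖ ^ 2) / ‖c‖ ^ 2 =
      ∫ c in {z : ℂ | 1 ≤ ‖z‖ ∧ ‖z‖ ≤ Real.exp L}, (‖c‖ ^ 2)⁻¹ := by
    refine setIntegral_congr_fun (ann_compact _ _).measurableSet fun c h => ?_
    have h4 : ‖c‖ ^ 2 ≤ Real.exp (2 * L) := by
      rw [two_mul, Real.exp_add, ← sq]
      exact pow_le_pow_left₀ (norm_nonneg _) h.2 2
    simp only [thL_one hL (one_le_pow₀ h.1) h4, one_div]
  have h5 := setIntegral_le_integral (s := {z : ℂ | 1 ≤ ‖z‖ ∧ ‖z‖ ≤ Real.exp L}) hi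
    (Eventually.of_forall fun c => div_nonneg (thL_nonneg L _) (sq_nonneg _))
  rw [h3, h1] at h5
  refine le_trans ?_ h5
  have h6 := Real.pi_gt_three
  have h7 : (0 : ℝ) ≤ L := Nat.cast_nonneg L
  push_cast
  nlinarith

theorem logi (_L : Lv0) : StmtLOG := by
  obtain ⟨C, hC, hC2⟩ := cut_deriv_bd
  refine ⟨fun N hN => ?_, cut_smooth, fun s => ⟨Real.smoothTransition.nonneg _,
    Real.smoothTransition.le_one _, cut_zero, cut_one, cut_deriv⟩, ⟨C, fun s => (hC2 s).1⟩,
    4 * C, by positivity, fun L => ⟨thL_smooth L, fun s => ⟨thL_nonneg L s, ?_, thL_supp L, ?_,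
      fun h => ?_⟩, thL_test L, thL_int⟩⟩
  · haveI : Nontrivial (E N) := Module.nontrivial_of_finrank_pos (R := ℝ) (by
      rw [finrank_E]; omega)
    refine ⟨(2 * N : ℕ) * (volume : Measure (E N)).real (ball 0 1), by positivity,
      fun a b ha hab => ⟨ContinuousOn.integrableOn_compact (ann_compact a b) ?_,
        (ann_int volume finrank_E ha hab).le⟩⟩
    exact (continuous_norm.pow _).continuousOn.inv₀ fun z hz =>
      pow_ne_zero _ (ha.trans_le hz.1).ne'
  · exact (sub_le_self _ (Real.smoothTransition.nonneg _)).trans (Real.smoothTransition.le_one _)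
  · have e : deriv (thL L) s * s = deriv cut (s * Real.exp (2 * L)) * (s * Real.exp (2 * L)) -
        deriv cut (s * Real.exp (-(2 * L))) * (s * Real.exp (-(2 * L))) := by
      rw [thL_deriv]
      ring
    rw [e]
    refine (abs_sub _ _).trans ?_
    linarith [(hC2 (s * Real.exp (2 * L))).2, (hC2 (s * Real.exp (-(2 * L)))).2]
  · obtain ⟨a1, a2, a3, a4⟩ := exp_facts L
    rw [thL_deriv] at h
    by_cases h1 : deriv cut (s * Real.exp (2 * L)) = 0
    · have h2 := cut_deriv_mem (s := s * Real.exp (-(2 * L))) fun e => h (by simp [h1, e])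
      have e : s = s * Real.exp (-(2 * L)) * Real.exp (2 * L) := by rw [mul_assoc, a4, mul_one]
      right
      constructor <;> nlinarith [h2.1, h2.2]
    · have h2 := cut_deriv_mem h1
      have e : s = s * Real.exp (2 * L) * Real.exp (-(2 * L)) := by
        rw [mul_assoc, mul_comm (Real.exp _), a4, mul_one]
      left
      constructor <;> nlinarith [h2.1, h2.2]

end

end Pool.Agent.MP_fcd29e_an.H96
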